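import Pool.Agent.MP_c0911c_al.Defs

namespace Pool.Agent.MP_c0911c_al

universe u v

theorem eval_map {R : Type u} {S : Type v} [NonUnitalRing R] [NonUnitalRing S]
    {F : Type*} [FunLike F R S] [NonUnitalRingHomClass F R S] (φ : F) (v : ℕ → R)
    (t : RingTerm) : φ (t.eval v) = t.eval (fun n => φ (v n)) := by
  induction t with
  | var n => rfl
  | zero => simp [RingTerm.eval]
  | add s t hs ht => simp [RingTerm.eval, hs, ht]
  | neg s hs => simp [RingTerm.eval, hs]
  | mul s t hs ht => simp [RingTerm.eval, hs, ht]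

theorem eval_quot {R : Type u} [NonUnitalRing R] (c : RingCon R) (v : ℕ → R)
    (t : RingTerm) : ((t.eval v : R) : c.Quotient) = t.eval (fun n => (v n : c.Quotient)) := by
  induction t with
  | var n => rfl
  | zero => rfl
  | add s t hs ht => simp only [RingTerm.eval, ← hs, ← ht]; rfl
  | neg s hs => simp only [RingTerm.eval, ← hs]; rfl
  | mul s t hs ht => simp only [RingTerm.eval, ← hs, ← ht]; rfl

theorem satisfies_quot_iff {R : Type u} [NonUnitalRing R] (I : TwoSidedIdeal R)
    (s t : RingTerm) :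
    SatisfiesIdentity I.ringCon.Quotient s t ↔ ∀ v : ℕ → R, s.eval v - t.eval v ∈ I := by
  constructor
  · intro h v
    have := h (fun n => (v n : I.ringCon.Quotient))
    rw [← eval_quot, ← eval_quot, RingCon.eq] at this
    exact (I.rel_iff _ _).1 this
  · intro h w
    have hw : ∀ n, ∃ a : R, (a : I.ringCon.Quotient) = w n := fun n =>
      Quot.exists_rep (w n)
    choose v hv using hw
    have : w = fun n => (v n : I.ringCon.Quotient) := funext fun n => (hv n).symm
    rw [this, ← eval_quot, ← eval_quot, RingCon.eq]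
    exact (I.rel_iff _ _).2 (h v)

/-- `f` takes values in every nonzero ideal and does not vanish identically. -/
def Witness (R : Type u) [NonUnitalRing R] (f : RingTerm) : Prop :=
  (∀ I : TwoSidedIdeal R, I ≠ ⊥ → ∀ v : ℕ → R, f.eval v ∈ I) ∧ ∃ v : ℕ → R, f.eval v ≠ 0

theorem isCritical_iff_witness (R : Type u) [NonUnitalRing R] :
    IsCritical R ↔ ∃ f, Witness R f := by
  constructor
  · rintro ⟨s, t, h1, h2⟩
    refine ⟨.add s (.neg t), fun I hI v => ?_, ?_⟩
    · have := (satisfies_quot_iff I s t).1 (h1 I hI) v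
      simpa [RingTerm.eval, sub_eq_add_neg] using this
    · simp only [SatisfiesIdentity, not_forall] at h2
      obtain ⟨v, hv⟩ := h2
      exact ⟨v, by simpa [RingTerm.eval, ← sub_eq_add_neg, sub_eq_zero] using hv⟩
  · rintro ⟨f, h1, v, hv⟩
    refine ⟨f, .zero, fun I hI => (satisfies_quot_iff I _ _).2 fun w => ?_, fun h => hv (h v)⟩
    simpa [RingTerm.eval] using h1 I hI w

/-- Every positive power set contains an idempotent. -/
theorem exists_idem {R : Type u} [Semigroup R] [Finite R] (a : R) :
    ∃ m ∈ Subsemigroup.closure ({a} : Set R), m * m = m := by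
  let : TopologicalSpace R := ⊥
  have : DiscreteTopology R := ⟨rfl⟩
  obtain ⟨m, hm, hm2⟩ := exists_idempotent_in_compact_subsemigroup
    (M := R) (fun _ => continuous_of_discreteTopology)
    (Subsemigroup.closure ({a} : Set R) : Set R)
    ⟨a, Subsemigroup.subset_closure rfl⟩ (Set.toFinite _).isCompact
    (fun x hx y hy => Subsemigroup.mul_mem _ hx hy)
  exact ⟨m, hm, hm2⟩

/-- The ideal `a R + ℤ a` is replaced by the ideal `a R` when convenient. -/
def mulIdeal {R : Type u} [NonUnitalCommRing R] (a : R) : TwoSidedIdeal R :=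
  TwoSidedIdeal.mk' {x | ∃ y, x = a * y} ⟨0, by simp⟩
    (by rintro _ _ ⟨y, rfl⟩ ⟨z, rfl⟩; exact ⟨y + z, by rw [mul_add]⟩)
    (by rintro _ ⟨y, rfl⟩; exact ⟨-y, by rw [mul_neg]⟩)
    (by rintro x _ ⟨y, rfl⟩; exact ⟨x * y, by rw [mul_left_comm]⟩)
    (by rintro _ x ⟨y, rfl⟩; exact ⟨y * x, by rw [mul_assoc]⟩)

theorem mem_mulIdeal {R : Type u} [NonUnitalCommRing R] (a x : R) :
    x ∈ mulIdeal a ↔ ∃ y, x = a * y := by
  simp [mulIdeal]

/-- The ideal of elements killed by `a`. -/
def annIdeal {R : Type u} [NonUnitalCommRing R] (a : R) : TwoSidedIdeal R :=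
  TwoSidedIdeal.mk' {x | a * x = 0} (by simp)
    (by intro x y hx hy; simp only [Set.mem_ofPred_eq] at *; rw [mul_add, hx, hy, add_zero])
    (by intro x hx; simp only [Set.mem_ofPred_eq] at *; rw [mul_neg, hx, neg_zero])
    (by intro x y hy; simp only [Set.mem_ofPred_eq] at *; rw [mul_left_comm, hy, mul_zero])
    (by intro x y hx; simp only [Set.mem_ofPred_eq] at *; rw [← mul_assoc, hx, zero_mul])

theorem mem_annIdeal {R : Type u} [NonUnitalCommRing R] (a x : R) :
    x ∈ annIdeal a ↔ a * x = 0 := by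
  simp [annIdeal]

/-- A subgroup of the annihilator is an ideal. -/
def subAnnIdeal {R : Type u} [NonUnitalCommRing R] (H : AddSubgroup R)
    (hH : H ≤ annihilatorSubgroup R) : TwoSidedIdeal R :=
  TwoSidedIdeal.mk' (H : Set R) H.zero_mem (fun hx hy => H.add_mem hx hy)
    (fun hx => H.neg_mem hx)
    (by intro x y hy; have := hH hy x; rw [mul_comm, this]; exact H.zero_mem)
    (by intro x y hx; have := hH hx y; rw [this]; exact H.zero_mem)

theorem mem_subAnnIdeal {R : Type u} [NonUnitalCommRing R] (H : AddSubgroup R)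
    (hH : H ≤ annihilatorSubgroup R) (x : R) : x ∈ subAnnIdeal H hH ↔ x ∈ H := by
  simp [subAnnIdeal]

/-- There is a nonzero element lying in every nonzero ideal. -/
def Mono (R : Type u) [NonUnitalRing R] : Prop :=
  ∃ m : R, m ≠ 0 ∧ ∀ I : TwoSidedIdeal R, I ≠ ⊥ → m ∈ I

theorem ne_bot_of_mem {R : Type u} [NonUnitalRing R] {I : TwoSidedIdeal R} {a : R}
    (ha : a ∈ I) (h0 : a ≠ 0) : I ≠ ⊥ := by
  rintro rfl
  exact h0 (by simpa using ha)

theorem exists_ne_zero_of_ne_bot {R : Type u} [NonUnitalRing R] {I : TwoSidedIdeal R}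
    (h : I ≠ ⊥) : ∃ a ∈ I, a ≠ 0 := by
  by_contra hc
  push Not at hc
  apply h
  ext x
  simp only [TwoSidedIdeal.mem_bot]
  exact ⟨hc x, fun h => h ▸ I.zero_mem⟩

theorem Mono.idem {R : Type u} [NonUnitalCommRing R] (h : Mono R) {e : R} (he : e * e = e)
    (he0 : e ≠ 0) (x : R) : e * x = x := by
  obtain ⟨m, hm0, hm⟩ := h
  by_contra hx
  have h1 : m ∈ mulIdeal e := hm _ (ne_bot_of_mem ((mem_mulIdeal e e).2 ⟨e, he.symm⟩) he0)
  have h2 : m ∈ annIdeal e := hm _ (ne_bot_of_mem (a := e * x - x)
    ((mem_annIdeal _ _).2 (by rw [mul_sub, ← mul_assoc, he, sub_self])) (sub_ne_zero.2 hx))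
  obtain ⟨y, rfl⟩ := (mem_mulIdeal _ _).1 h1
  rw [mem_annIdeal, ← mul_assoc, he] at h2
  exact hm0 h2

theorem foldl_mul_eq {R : Type u} [NonUnitalCommRing R] (a b : R) (l : List R) :
    l.foldl (· * ·) (a * b) = a * l.foldl (· * ·) b := by
  induction l generalizing b with
  | nil => rfl
  | cons c l ih => simp only [List.foldl_cons, mul_assoc, ih]

theorem foldl_zero {R : Type u} [NonUnitalCommRing R] (l : List R) :
    l.foldl (· * ·) (0 : R) = 0 := by
  induction l with
  | nil => rfl
  | cons c l ih => simpa only [List.foldl_cons, zero_mul] using ih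

/-- A finite commutative ring with no nonzero idempotent is nilpotent. -/
theorem nilpotent_of_no_idem {R : Type u} [NonUnitalCommRing R] [Finite R]
    (h : ∀ e : R, e * e = e → e = 0) :
    ∃ n : ℕ, ∀ (a : R) (l : List R), l.length = n → l.foldl (· * ·) a = 0 := by
  have key : ∀ a y : R, a * y = a → a = 0 := by
    intro a y hay
    obtain ⟨m, hm, hm2⟩ := exists_idem y
    have : a * m = a := by
      clear hm2
      induction hm using Subsemigroup.closure_induction with
      | mem x hx => rw [Set.mem_singleton_iff.1 hx, hay]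
      | mul x z _ _ hx hz => rw [← mul_assoc, hx, hz]
    rw [h m hm2, mul_zero] at this
    exact this.symm
  refine ⟨Nat.card R, fun a l hl => ?_⟩
  have aux : ∀ i j : ℕ, i < j → j ≤ l.length →
      (l.take i).foldl (· * ·) a = (l.take j).foldl (· * ·) a → l.foldl (· * ·) a = 0 := by
    intro i j hij hj heq
    have h1 : l.take j = l.take i ++ (l.drop i).take (j - i) := by
      rw [← List.take_add, Nat.add_sub_cancel' hij.le]
    have h2 : ((l.drop i).take (j - i)).length = j - i := by
      simp only [List.length_take, List.length_drop]; omega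
    rw [h1, List.foldl_append] at heq
    cases hs : (l.drop i).take (j - i) with
    | nil => rw [hs] at h2; simp at h2; omega
    | cons c t =>
      rw [hs, List.foldl_cons, foldl_mul_eq] at heq
      have h0 := key _ _ heq.symm
      rw [← List.take_append_drop i l, List.foldl_append, h0, foldl_zero]
  have := Fintype.ofFinite R
  obtain ⟨i, j, hij, heq⟩ := Fintype.exists_ne_map_eq_of_card_lt
    (fun i : Fin (Nat.card R + 1) => (l.take i).foldl (· * ·) a) (by simp)
  rcases lt_or_gt_of_ne hij with h' | h'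
  · exact aux i j h' (by have := j.2; omega) heq
  · exact aux j i h' (by have := i.2; omega) heq.symm

end Pool.Agent.MP_c0911c_al
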