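import Mathlib

namespace Pool.Agent.MP_c0911c_al

universe u

/-- Terms of the language `(+, -, 0, ·)` in the variables `x 0, x 1, ...`. -/
inductive RingTerm : Type
  | var : ℕ → RingTerm
  | zero : RingTerm
  | add : RingTerm → RingTerm → RingTerm
  | neg : RingTerm → RingTerm
  | mul : RingTerm → RingTerm → RingTerm

/-- The value of a term in a ring (not necessarily with identity) under an assignment `v`. -/
def RingTerm.eval {R : Type u} [NonUnitalRing R] (v : ℕ → R) : RingTerm → R
  | .var n => v n
  | .zero => 0
  | .add s t => s.eval v + t.eval v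
  | .neg s => -s.eval v
  | .mul s t => s.eval v * t.eval v

/-- The identity `s = t` holds in `R`. -/
def SatisfiesIdentity (R : Type u) [NonUnitalRing R] (s t : RingTerm) : Prop :=
  ∀ v : ℕ → R, s.eval v = t.eval v

/-- Some identity holds in every proper quotient `R / I` (`I` a nonzero two-sided ideal)
but fails in `R`. -/
def IsCritical (R : Type u) [NonUnitalRing R] : Prop :=
  ∃ s t : RingTerm,
    (∀ I : TwoSidedIdeal R, I ≠ ⊥ → SatisfiesIdentity I.ringCon.Quotient s t) ∧
      ¬ SatisfiesIdentity R s t

/-- The annihilator `{a | a x = 0 for all x}` of a commutative ring, as an additive subgroup. -/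
def annihilatorSubgroup (R : Type u) [NonUnitalCommRing R] : AddSubgroup R where
  carrier := {a | ∀ x, a * x = 0}
  zero_mem' := fun x => zero_mul x
  add_mem' := fun {a b} ha hb x => by rw [add_mul, ha x, hb x, add_zero]
  neg_mem' := fun {a} ha x => by rw [neg_mul, ha x, neg_zero]

end Pool.Agent.MP_c0911c_al
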