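import Mathlib

namespace Pool.Agent.MP_c0911c_al

universe u

/-- The ideal generated by the `n`-th powers of the elements of `J`. -/
def powIdeal {S : Type u} [CommRing S] (J : Ideal S) (n : ℕ) : Ideal S :=
  Ideal.span {w | ∃ x ∈ J, w = x ^ n}

/-- The ideal generated by the elements `(x + y + z) ^ n - x ^ n - y ^ n` with `x, y ∈ J` and
`z ∈ (p) + J ^ 2`. -/
def devIdeal {S : Type u} [CommRing S] (J : Ideal S) (p n : ℕ) : Ideal S :=
  Ideal.span {w | ∃ x ∈ J, ∃ y ∈ J, ∃ z ∈ Ideal.span {(p : S)} ⊔ J ^ 2,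
    w = (x + y + z) ^ n - x ^ n - y ^ n}

end Pool.Agent.MP_c0911c_al
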