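import Pool.Agent.MP_c0911c_al.Basic

namespace Pool.Agent.MP_c0911c_al

universe u v

open IsLocalRing

/-! ### Auxiliary terms -/

/-- `x_0 * x_1 * ... * x_n` with `x_(i+1)` replaced by `g (i+1)`. -/
def prodTerm (g : ℕ → RingTerm) : ℕ → RingTerm
  | 0 => .var 0
  | n + 1 => .mul (prodTerm g n) (g (n + 1))

/-- `t ^ (n+1)`. -/
def powTerm (t : RingTerm) : ℕ → RingTerm
  | 0 => t
  | n + 1 => .mul (powTerm t n) t

/-- `n • t`. -/
def nsmulTerm (t : RingTerm) : ℕ → RingTerm
  | 0 => .zero
  | n + 1 => .add (nsmulTerm t n) t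

theorem eval_powTerm {S : Type u} [CommRing S] (v : ℕ → S) (t : RingTerm) (n : ℕ) :
    (powTerm t n).eval v = (t.eval v) ^ (n + 1) := by
  induction n with
  | zero => simp [powTerm]
  | succ n ih => simp only [powTerm, RingTerm.eval, ih]; ring

theorem eval_nsmulTerm {R : Type u} [NonUnitalRing R] (v : ℕ → R) (t : RingTerm) (n : ℕ) :
    (nsmulTerm t n).eval v = n • (t.eval v) := by
  induction n with
  | zero => simp [nsmulTerm, RingTerm.eval]
  | succ n ih => simp only [nsmulTerm, RingTerm.eval, ih, succ_nsmul]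

theorem eval_prodTerm {S : Type u} [CommRing S] (v : ℕ → S) (g : ℕ → RingTerm) (n : ℕ) :
    (prodTerm g n).eval v = v 0 * ∏ i ∈ Finset.range n, (g (i + 1)).eval v := by
  induction n with
  | zero => simp [prodTerm, RingTerm.eval]
  | succ n ih => simp only [prodTerm, RingTerm.eval, ih, Finset.prod_range_succ]; ring

theorem eval_prodTerm_var {R : Type u} [NonUnitalCommRing R] (v : ℕ → R) (n : ℕ) :
    (prodTerm .var n).eval v = (List.ofFn fun i : Fin n => v (i + 1)).foldl (· * ·) (v 0) := by
  induction n with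
  | zero => simp [prodTerm, RingTerm.eval]
  | succ n ih =>
    simp only [prodTerm, RingTerm.eval, ih]
    rw [List.ofFn_succ', List.concat_eq_append, List.foldl_append]
    simp

theorem exists_eval_prodTerm_var {R : Type u} [NonUnitalCommRing R] (a : R) (l : List R) :
    ∃ v : ℕ → R, (prodTerm .var l.length).eval v = l.foldl (· * ·) a := by
  refine ⟨fun i => (a :: l).getD i 0, ?_⟩
  rw [eval_prodTerm_var]
  simp

/-! ### The nilpotent case -/

theorem exists_mem_ann {R : Type u} [NonUnitalCommRing R]
    (hn : ∃ n : ℕ, ∀ (a : R) (l : List R), l.length = n → l.foldl (· * ·) a = 0)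
    {I : TwoSidedIdeal R} {a : R} (ha : a ∈ I) (h0 : a ≠ 0) :
    ∃ b ∈ I, b ≠ 0 ∧ b ∈ annihilatorSubgroup R := by
  obtain ⟨n, hn⟩ := hn
  by_contra hc
  push Not at hc
  have : ∀ k : ℕ, ∃ l : List R, l.length = k ∧ l.foldl (· * ·) a ≠ 0 ∧ l.foldl (· * ·) a ∈ I := by
    intro k
    induction k with
    | zero => exact ⟨[], rfl, h0, ha⟩
    | succ k ih =>
      obtain ⟨l, h1, h2, h3⟩ := ih
      have := hc _ h3 h2
      simp only [annihilatorSubgroup, AddSubgroup.mem_mk, AddSubmonoid.mem_mk,
        AddSubsemigroup.mem_mk, Set.mem_ofPred_eq, not_forall] at this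
      obtain ⟨x, hx⟩ := this
      refine ⟨l ++ [x], by simp [h1], by simpa using hx, ?_⟩
      simpa using I.mul_mem_right _ x h3
  obtain ⟨l, h1, h2, -⟩ := this n
  exact h2 (hn a l h1)

/-- In a finite cyclic group of prime power order, every element killed by `p` is a multiple
of every nonzero element. -/
theorem cyclic_pgroup_aux {G : Type u} [AddCommGroup G] [Finite G] [IsAddCyclic G] {p k : ℕ}
    (hp : p.Prime) (hc : Nat.card G = p ^ k) {b c : G} (hb : b ≠ 0) (hpc : p • c = 0) :
    c ∈ AddSubgroup.zmultiples b := by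
  classical
  have := Fintype.ofFinite G
  have h1 : addOrderOf b ∣ p ^ k := hc ▸ addOrderOf_dvd_natCard b
  obtain ⟨j, -, hj⟩ := (Nat.dvd_prime_pow hp).1 h1
  cases j with
  | zero => exact absurd (by simpa using hj) hb
  | succ j =>
    have h2 : addOrderOf (p ^ j • b) = p := by
      rw [addOrderOf_nsmul, hj, pow_succ, Nat.gcd_eq_right (Dvd.intro _ rfl),
        Nat.mul_div_cancel_left _ (pow_pos hp.pos j)]
    have h3 : (AddSubgroup.zmultiples (p ^ j • b) : Set G).toFinset =
        Finset.univ.filter (fun a : G => p • a = 0) := by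
      apply Finset.eq_of_subset_of_card_le
      · intro x hx
        simp only [Set.mem_toFinset, SetLike.mem_coe, AddSubgroup.mem_zmultiples_iff] at hx
        obtain ⟨z, rfl⟩ := hx
        simp only [Finset.mem_filter, Finset.mem_univ, true_and]
        rw [smul_comm]
        have : p • (p ^ j • b) = 0 := by
          have := addOrderOf_nsmul_eq_zero (p ^ j • b)
          rwa [h2] at this
        rw [this, smul_zero]
      · refine (IsAddCyclic.card_nsmul_eq_zero_le hp.pos).trans ?_
        rw [Set.toFinset_card, ← Nat.card_eq_fintype_card]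
        exact ((Nat.card_zmultiples _).trans h2).ge
    have h4 : c ∈ (AddSubgroup.zmultiples (p ^ j • b) : Set G).toFinset := by
      rw [h3]; simpa using hpc
    simp only [Set.mem_toFinset, SetLike.mem_coe, AddSubgroup.mem_zmultiples_iff] at h4
    obtain ⟨z, rfl⟩ := h4
    exact AddSubgroup.zsmul_mem _ (AddSubgroup.nsmul_mem _ (AddSubgroup.mem_zmultiples b) _) _

theorem witness_of_nilpotent {R : Type u} [NonUnitalCommRing R] [Finite R]
    (hn : ∃ n : ℕ, ∀ (a : R) (l : List R), l.length = n → l.foldl (· * ·) a = 0)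
    (hcyc : IsAddCyclic (annihilatorSubgroup R))
    (hpp : IsPrimePow (Nat.card (annihilatorSubgroup R))) : ∃ f, Witness R f := by
  classical
  obtain ⟨p, k, hp, hk, hc⟩ := (isPrimePow_nat_iff _).1 hpp
  have hN := Nat.find_spec hn
  have hnt : Nontrivial (annihilatorSubgroup R) := by
    rw [← Finite.one_lt_card_iff_nontrivial, ← hc]
    exact Nat.one_lt_pow hk.ne' hp.one_lt
  cases hNe : Nat.find hn with
  | zero =>
    exfalso
    rw [hNe] at hN
    obtain ⟨x, hx⟩ := exists_ne (0 : annihilatorSubgroup R)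
    exact hx (Subtype.ext (hN x [] rfl))
  | succ n =>
    have hmin := Nat.find_min hn (m := n) (by omega)
    rw [hNe] at hN
    push Not at hmin
    obtain ⟨a, l, hl, hal⟩ := hmin
    have hval : ∀ v : ℕ → R, (prodTerm .var n).eval v ∈ annihilatorSubgroup R := by
      intro v x
      have := hN (v 0) ((List.ofFn fun i : Fin n => v (i + 1)) ++ [x]) (by simp)
      rw [eval_prodTerm_var]
      simpa using this
    have hex : ∃ e : ℕ, ∀ v : ℕ → R, p ^ e • (prodTerm .var n).eval v = 0 := by
      refine ⟨k, fun v => ?_⟩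
      have := card_nsmul_eq_zero' (G := annihilatorSubgroup R) (x := ⟨_, hval v⟩)
      rw [← hc] at this
      exact congrArg Subtype.val this
    have hE := Nat.find_spec hex
    cases hEe : Nat.find hex with
    | zero =>
      exfalso
      rw [hEe] at hE
      obtain ⟨v, hv⟩ := exists_eval_prodTerm_var a l
      have := hE v
      rw [← hl, hv] at this
      exact hal (by simpa using this)
    | succ e =>
      have hmin := Nat.find_min hex (m := e) (by omega)
      rw [hEe] at hE
      push Not at hmin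
      refine ⟨nsmulTerm (prodTerm .var n) (p ^ e), fun I hI v => ?_, ?_⟩
      · obtain ⟨x, hx, hx0⟩ := exists_ne_zero_of_ne_bot hI
        obtain ⟨b, hb, hb0, hba⟩ := exists_mem_ann hn hx hx0
        have h1 := cyclic_pgroup_aux (G := annihilatorSubgroup R) hp hc.symm
          (b := ⟨b, hba⟩) (c := p ^ e • ⟨_, hval v⟩) (fun h => hb0 (congrArg Subtype.val h))
          (by
            apply Subtype.ext
            have := hE v
            rw [pow_succ', mul_smul] at this
            exact this)
        obtain ⟨z, hz⟩ := AddSubgroup.mem_zmultiples_iff.1 h1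
        have hz' : z • b = p ^ e • (prodTerm .var n).eval v := congrArg Subtype.val hz
        rw [eval_nsmulTerm, ← hz']
        exact I.zsmul_mem z hb
      · obtain ⟨v, hv⟩ := hmin
        exact ⟨v, by rwa [eval_nsmulTerm]⟩

theorem group_aux {G : Type u} [AddCommGroup G] [Finite G] {m : G} (hm0 : m ≠ 0)
    (hm : ∀ H : AddSubgroup G, H ≠ ⊥ → m ∈ H) : IsAddCyclic G ∧ IsPrimePow (Nat.card G) := by
  constructor
  · obtain ⟨ψ, hψ⟩ := (AddChar.exists_apply_ne_zero (a := m)).2 hm0
    rw [← isCyclic_multiplicative_iff]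
    apply isCyclic_of_injective_ringHom ψ.toMonoidHom
    rw [injective_iff_map_eq_one]
    intro a ha
    by_contra h0
    have h1 := hm (AddSubgroup.zmultiples a.toAdd) (by simpa using h0)
    obtain ⟨z, hz⟩ := AddSubgroup.mem_zmultiples_iff.1 h1
    apply hψ
    have ha' : ψ a.toAdd = 1 := ha
    rw [← hz, AddChar.map_zsmul_eq_zpow, ha', one_zpow]
  · have key : ∀ p : ℕ, p.Prime → p ∣ Nat.card G → addOrderOf m = p := by
      intro p hp hd
      have : Fact p.Prime := ⟨hp⟩
      obtain ⟨x, hx⟩ := exists_prime_addOrderOf_dvd_card' p hd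
      have h1 := hm (AddSubgroup.zmultiples x) (by
        rw [Ne, AddSubgroup.zmultiples_eq_bot]
        rintro rfl
        exact hp.one_lt.ne (by simpa using hx))
      have h2 := addOrderOf_dvd_of_mem_zmultiples h1
      rw [hx] at h2
      rcases (Nat.dvd_prime hp).1 h2 with h | h
      · exact absurd (by simpa using h) hm0
      · exact h
    rw [isPrimePow_iff_unique_prime_dvd]
    have hnt : Nontrivial G := ⟨⟨m, 0, hm0⟩⟩
    have h1 : Nat.card G ≠ 1 := Finite.one_lt_card.ne'
    refine ⟨(Nat.card G).minFac, ⟨Nat.minFac_prime h1, Nat.minFac_dvd _⟩, ?_⟩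
    rintro q ⟨hq, hd⟩
    rw [← key q hq hd, key _ (Nat.minFac_prime h1) (Nat.minFac_dvd _)]

theorem nilpotent_struct {R : Type u} [NonUnitalCommRing R] [Finite R] (h : Mono R)
    (hn : ∃ n : ℕ, ∀ (a : R) (l : List R), l.length = n → l.foldl (· * ·) a = 0) :
    IsAddCyclic (annihilatorSubgroup R) ∧ IsPrimePow (Nat.card (annihilatorSubgroup R)) := by
  obtain ⟨m, hm0, hm⟩ := h
  have key : ∀ H : AddSubgroup R, H ≤ annihilatorSubgroup R → ∀ b ∈ H, b ≠ 0 → m ∈ H := by
    intro H hH b hb hb0
    exact (mem_subAnnIdeal H hH m).1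
      (hm _ (ne_bot_of_mem ((mem_subAnnIdeal H hH b).2 hb) hb0))
  obtain ⟨b, -, hb0, hba⟩ := exists_mem_ann hn (I := ⊤) (a := m) trivial hm0
  have hma := key _ le_rfl b hba hb0
  refine group_aux (m := ⟨m, hma⟩) (fun h => hm0 (congrArg Subtype.val h)) ?_
  intro H hH
  obtain ⟨c, hc⟩ := (AddSubgroup.ne_bot_iff_exists_ne_zero).1 hH
  have := key (H.map (annihilatorSubgroup R).subtype) (AddSubgroup.map_subtype_le H) c.1.1
    ⟨c.1, c.2, rfl⟩ (fun h => hc (Subtype.ext (Subtype.ext h)))
  obtain ⟨y, hy, hy2⟩ := this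
  have : y = ⟨m, hma⟩ := Subtype.ext hy2
  exact this ▸ hy

/-! ### The local case -/

theorem maximalIdeal_nilpotent (S : Type u) [CommRing S] [Finite S] [IsLocalRing S] :
    IsNilpotent (maximalIdeal S) := by
  have := IsArtinianRing.isNilpotent_jacobson_bot (R := S)
  rwa [IsLocalRing.jacobson_eq_maximalIdeal ⊥ bot_ne_top] at this

theorem card_span_of_ann {S : Type u} [CommRing S] [IsLocalRing S] {b : S}
    (hb : b ∈ (maximalIdeal S).annihilator) (hb0 : b ≠ 0) :
    Nat.card (Ideal.span {b}) = Nat.card (ResidueField S) := by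
  have hker : LinearMap.ker (LinearMap.toSpanSingleton S S b) = maximalIdeal S := by
    symm
    apply (IsLocalRing.maximalIdeal.isMaximal S).eq_of_le
    · intro h
      have : (1 : S) ∈ LinearMap.ker (LinearMap.toSpanSingleton S S b) := h ▸ trivial
      exact hb0 (by simpa using this)
    · intro x hx
      have := Submodule.mem_annihilator.1 hb x hx
      simpa [mul_comm] using this
  have e := (LinearMap.toSpanSingleton S S b).quotKerEquivRange
  rw [hker, LinearMap.range_toSpanSingleton] at e
  exact (Nat.card_congr e.toEquiv).symm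

theorem exists_mul_mem_ann {S : Type u} [CommRing S] [Finite S] [IsLocalRing S] {a : S}
    (ha : a ≠ 0) : ∃ s : S, s * a ≠ 0 ∧ s * a ∈ (maximalIdeal S).annihilator := by
  obtain ⟨n, hn⟩ := maximalIdeal_nilpotent S
  by_contra hc
  push Not at hc
  have : ∀ k : ℕ, ∃ s ∈ maximalIdeal S ^ k, s * a ≠ 0 := by
    intro k
    induction k with
    | zero => exact ⟨1, by simp, by simpa using ha⟩
    | succ k ih =>
      obtain ⟨s, h1, h2⟩ := ih
      have := hc s h2
      rw [Submodule.mem_annihilator] at this
      push Not at this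
      obtain ⟨x, hx, hx2⟩ := this
      refine ⟨s * x, pow_succ (maximalIdeal S) k ▸ Ideal.mul_mem_mul h1 hx, ?_⟩
      rw [smul_eq_mul] at hx2
      rwa [mul_right_comm]
  obtain ⟨s, h1, h2⟩ := this n
  rw [hn] at h1
  exact h2 (by rw [(Ideal.mem_bot).1 h1, zero_mul])

theorem local_witness {S : Type u} [CommRing S] [Finite S] [IsLocalRing S] :
    ∃ f : RingTerm, (∀ v : ℕ → S, f.eval v ∈ (maximalIdeal S).annihilator) ∧
      ∃ v : ℕ → S, f.eval v ≠ 0 := by
  classical
  have : Finite (ResidueField S) := Finite.of_surjective _ (residue_surjective (R := S))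
  have := Fintype.ofFinite (ResidueField S)
  obtain ⟨q, hq⟩ : ∃ q, Fintype.card (ResidueField S) = q + 2 :=
    ⟨Fintype.card (ResidueField S) - 2, by have := Fintype.one_lt_card (α := ResidueField S); omega⟩
  let g : ℕ → RingTerm := fun i => .add (powTerm (.var i) (q + 1)) (.neg (.var i))
  have hg : ∀ (v : ℕ → S) i, (g i).eval v = v i ^ (q + 2) - v i := by
    intro v i
    simp only [g, RingTerm.eval, eval_powTerm, sub_eq_add_neg]
  have hgm : ∀ (v : ℕ → S) i, (g i).eval v ∈ maximalIdeal S := by
    intro v i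
    rw [hg, ← residue_eq_zero_iff, map_sub, map_pow, ← hq, FiniteField.pow_card, sub_self]
  have hex : ∃ n : ℕ, ∀ w : ℕ → S, (∀ i, w i ∈ maximalIdeal S) → ∏ i ∈ Finset.range n, w i = 0 := by
    obtain ⟨n, hn⟩ := maximalIdeal_nilpotent S
    refine ⟨n, fun w hw => ?_⟩
    have := Ideal.prod_mem_prod (s := Finset.range n) (I := fun _ => maximalIdeal S) (x := w)
      (fun i _ => hw i)
    rw [Finset.prod_const, Finset.card_range, hn] at this
    exact Ideal.mem_bot.1 this
  have hN := Nat.find_spec hex
  cases hNe : Nat.find hex with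
  | zero =>
    rw [hNe] at hN
    exact absurd (hN (fun _ => 0) (fun _ => zero_mem _)) (by simp)
  | succ n =>
    have hmin := Nat.find_min hex (m := n) (by omega)
    rw [hNe] at hN
    push Not at hmin
    obtain ⟨w, hw, hw0⟩ := hmin
    refine ⟨prodTerm g n, fun v => ?_, ⟨fun i => Nat.casesOn i 1 w, ?_⟩⟩
    · rw [Submodule.mem_annihilator]
      intro x hx
      have := hN (fun i => Nat.casesOn i x (fun j => (g (j + 1)).eval v)) (by
        intro i; cases i with
        | zero => exact hx
        | succ j => exact hgm v _)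
      rw [Finset.prod_range_succ'] at this
      rw [eval_prodTerm, smul_eq_mul, mul_assoc]
      simp only [Nat.rec_zero] at this
      rw [this, mul_zero]
    · rw [eval_prodTerm]
      simp only [hg, Nat.rec_zero, one_mul]
      have : ∏ i ∈ Finset.range n, (w i ^ (q + 2) - w i) =
          (∏ i ∈ Finset.range n, (w i ^ (q + 1) - 1)) * ∏ i ∈ Finset.range n, w i := by
        rw [← Finset.prod_mul_distrib]
        exact Finset.prod_congr rfl fun i _ => by ring
      rw [this]
      have hu : IsUnit (∏ i ∈ Finset.range n, (w i ^ (q + 1) - 1)) := by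
        rw [IsUnit.prod_iff]
        intro i _
        rw [← neg_sub, IsUnit.neg_iff]
        exact isUnit_one_sub_self_of_mem_nonunits _
          (Ideal.pow_mem_of_mem (maximalIdeal S) (hw i) _ (Nat.succ_pos q))
      exact fun h => hw0 ((hu.mul_right_eq_zero).1 h)

theorem witness_of_local {R : Type u} [NonUnitalCommRing R] [Finite R] {S : Type v} [CommRing S]
    [IsLocalRing S] (φ : R ≃+* S)
    (hc : Nat.card (maximalIdeal S).annihilator = Nat.card (ResidueField S)) :
    ∃ f, Witness R f := by
  have : Finite S := Finite.of_equiv R φ.toEquiv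
  obtain ⟨f, hf, w, hw⟩ := local_witness (S := S)
  refine ⟨f, fun I hI v => ?_, ⟨fun n => φ.symm (w n), ?_⟩⟩
  · obtain ⟨a, ha, ha0⟩ := exists_ne_zero_of_ne_bot hI
    obtain ⟨s, hs0, hs⟩ := exists_mul_mem_ann (a := φ a) (by simpa using ha0)
    have h1 : Ideal.span {s * φ a} = (maximalIdeal S).annihilator := by
      apply SetLike.coe_injective
      apply Set.eq_of_subset_of_ncard_le
      · exact (Ideal.span_singleton_le_iff_mem _).2 hs
      · rw [← Nat.card_coe_set_eq, ← Nat.card_coe_set_eq]
        exact (hc.trans (card_span_of_ann hs hs0).symm).le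
      · exact Set.toFinite _
    have h2 := hf (fun n => φ (v n))
    rw [← eval_map, ← h1, Ideal.mem_span_singleton'] at h2
    obtain ⟨t, ht⟩ := h2
    have : f.eval v = φ.symm (t * s) * a := by
      apply φ.injective
      rw [map_mul, RingEquiv.apply_symm_apply, ← ht, mul_assoc]
    rw [this]
    exact I.mul_mem_left _ _ ha
  · rw [← eval_map]
    simpa using hw

theorem local_struct {R : Type u} [NonUnitalCommRing R] [Finite R] (h : Mono R) {e : R}
    (he : e * e = e) (he0 : e ≠ 0) :
    ∃ (S : Type u) (_ : CommRing S) (_ : IsLocalRing S), Nonempty (R ≃+* S) ∧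
      Nat.card (maximalIdeal S).annihilator = Nat.card (ResidueField S) := by
  let inst : CommRing R :=
    { (inferInstance : NonUnitalCommRing R) with
      one := e
      one_mul := h.idem he he0
      mul_one := fun x => by rw [mul_comm]; exact h.idem he he0 x }
  have h1 : (1 : R) = e := rfl
  have : Nontrivial R := ⟨⟨e, 0, he0⟩⟩
  have hloc : IsLocalRing R := by
    apply IsLocalRing.of_isUnit_or_isUnit_one_sub_self
    intro a
    obtain ⟨m, hm, hm2⟩ := exists_idem a
    have hp : ∃ k : ℕ, m = a ^ (k + 1) := by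
      clear hm2
      induction hm using Subsemigroup.closure_induction with
      | mem x hx => exact ⟨0, by rw [Set.mem_singleton_iff.1 hx, zero_add, pow_one]⟩
      | mul x z _ _ hx hz =>
        obtain ⟨i, rfl⟩ := hx
        obtain ⟨j, rfl⟩ := hz
        exact ⟨i + j + 1, by rw [← pow_add]; congr 1; ring⟩
    obtain ⟨k, hk⟩ := hp
    by_cases hm0 : m = 0
    · right
      exact IsNilpotent.isUnit_one_sub ⟨k + 1, hk ▸ hm0⟩
    · left
      have := h.idem hm2 hm0 1
      rw [mul_one, hk] at this
      exact IsUnit.of_pow_eq_one this (Nat.succ_ne_zero k)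
  refine ⟨R, inst, hloc, ⟨RingEquiv.refl R⟩, ?_⟩
  obtain ⟨m, hm0, hm⟩ := h
  have key : ∀ b : R, b ≠ 0 → m ∈ Ideal.span {b} := by
    intro b hb
    have := hm (mulIdeal b) (ne_bot_of_mem ((mem_mulIdeal b b).2 ⟨1, (mul_one b).symm⟩) hb)
    obtain ⟨y, hy⟩ := (mem_mulIdeal _ _).1 this
    exact Ideal.mem_span_singleton'.2 ⟨y, by rw [hy, mul_comm]⟩
  obtain ⟨s, hs0, hs⟩ := exists_mul_mem_ann (a := m) hm0
  have hma : m ∈ (maximalIdeal R).annihilator :=
    (Ideal.span_singleton_le_iff_mem _).2 hs (key _ hs0)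
  have h2 : (maximalIdeal R).annihilator = Ideal.span {m} := by
    apply le_antisymm
    · intro b hb
      by_cases hb0 : b = 0
      · rw [hb0]; exact zero_mem _
      · have h3 : Ideal.span {m} = Ideal.span {b} := by
          apply SetLike.coe_injective
          apply Set.eq_of_subset_of_ncard_le
          · exact (Ideal.span_singleton_le_iff_mem _).2 (key b hb0)
          · rw [← Nat.card_coe_set_eq, ← Nat.card_coe_set_eq]
            exact ((card_span_of_ann hb hb0).trans (card_span_of_ann hma hm0).symm).le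
          · exact Set.toFinite _
        rw [h3]
        exact Ideal.mem_span_singleton_self b
    · exact (Ideal.span_singleton_le_iff_mem _).2 hma
  rw [h2]
  exact card_span_of_ann hma hm0

theorem isCritical_iff (R : Type u) [NonUnitalCommRing R] [Finite R] :
    IsCritical R ↔
      (∃ (S : Type u) (_ : CommRing S) (_ : IsLocalRing S), Nonempty (R ≃+* S) ∧
        Nat.card (IsLocalRing.maximalIdeal S).annihilator =
          Nat.card (IsLocalRing.ResidueField S)) ∨
      ((∃ n : ℕ, ∀ (a : R) (l : List R), l.length = n → l.foldl (· * ·) a = 0) ∧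
        IsAddCyclic (annihilatorSubgroup R) ∧
        IsPrimePow (Nat.card (annihilatorSubgroup R))) := by
  rw [isCritical_iff_witness]
  constructor
  · rintro ⟨f, h1, v, hv⟩
    have hM : Mono R := ⟨_, hv, fun I hI => h1 I hI v⟩
    by_cases h : ∀ e : R, e * e = e → e = 0
    · exact Or.inr ⟨nilpotent_of_no_idem h, nilpotent_struct hM (nilpotent_of_no_idem h)⟩
    · push Not at h
      obtain ⟨e, he, he0⟩ := h
      exact Or.inl (local_struct hM he he0)
  · rintro (⟨S, _, _, ⟨φ⟩, hc⟩ | ⟨h1, h2, h3⟩)
    · exact witness_of_local φ hc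
    · exact witness_of_nilpotent h1 h2 h3

end Pool.Agent.MP_c0911c_al
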