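import Mathlib

namespace Pool.Agent.MP_c0911c_al

open MvPolynomial

theorem eq_zero_of_coprime_smul {M : Type*} [AddCommGroup M] {p N : ℕ} {d : ℤ}
    (hd : IsCoprime d (p : ℤ)) {m : M} (h1 : d • m = 0) (h2 : p ^ N • m = 0) : m = 0 := by
  obtain ⟨a, b, hab⟩ := (hd.pow_right (n := N))
  have h3 : ((p : ℤ) ^ N) • m = 0 := by rw [← Nat.cast_pow, natCast_zsmul, h2]
  calc m = (a * d + b * (p : ℤ) ^ N) • m := by rw [hab, one_smul]
    _ = 0 := by rw [add_smul, mul_smul, mul_smul, h1, h3, smul_zero, smul_zero, add_zero]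

theorem vandermonde_aux {M : Type*} [AddCommGroup M] {p N : ℕ} (hp : p.Prime) (m : ℕ → M)
    (ht : ∀ i, p ^ N • m i = 0) (h : ∀ μ : ℤ, ∑ i ∈ Finset.range p, μ ^ i • m i = 0) :
    ∀ i < p, m i = 0 := by
  intro k hk
  let V : Matrix (Fin p) (Fin p) ℤ := Matrix.vandermonde (fun i => ((i : ℕ) : ℤ))
  have hdet : IsCoprime V.det (p : ℤ) := by
    rw [Matrix.det_vandermonde]
    apply IsCoprime.prod_left
    intro i _
    apply IsCoprime.prod_left
    intro j hj
    have hij : (i : ℕ) < j := (Finset.mem_Ioi.1 hj : i < j)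
    rw [← Nat.cast_sub hij.le, Nat.isCoprime_iff_coprime]
    exact ((Nat.coprime_of_lt_prime (by omega) (by have := j.2; omega) hp)).symm
  refine eq_zero_of_coprime_smul hdet ?_ (ht k)
  have h1 : ∀ i : Fin p, ∑ j : Fin p, V i j • m j = 0 := by
    intro i
    have := h ((i : ℕ) : ℤ)
    rw [Finset.sum_range] at this
    simpa [V, Matrix.vandermonde_apply] using this
  have h2 : ∑ i : Fin p, V.adjugate ⟨k, hk⟩ i • ∑ j : Fin p, V i j • m j = 0 := by
    simp [h1]
  simp only [Finset.smul_sum, ← mul_smul] at h2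
  rw [Finset.sum_comm] at h2
  simp only [← Finset.sum_smul] at h2
  have h3 : ∀ j : Fin p, ∑ i : Fin p, V.adjugate ⟨k, hk⟩ i * V i j =
      if (⟨k, hk⟩ : Fin p) = j then V.det else 0 := by
    intro j
    have := congrFun (congrFun (Matrix.adjugate_mul V) ⟨k, hk⟩) j
    rw [Matrix.mul_apply] at this
    rw [this, Matrix.smul_apply, Matrix.one_apply]
    split_ifs <;> simp
  simpa [h3] using h2

theorem mv_fin_eq_zero {A : Type*} [CommRing A] {p N : ℕ} (hp : p.Prime) (n : ℕ) :
    ∀ Q : MvPolynomial (Fin n) A, (∀ α, p ^ N • coeff α Q = 0) →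
      (∀ α ∈ Q.support, ∀ i, α i < p) →
      (∀ lam : Fin n → ℤ, eval (fun i => (lam i : A)) Q = 0) → Q = 0 := by
  induction n with
  | zero =>
    intro Q _ _ h
    have := h (fun _ => 0)
    rw [Q.eq_C_of_isEmpty] at this ⊢
    rw [eval_C] at this
    rw [this, C_0]
  | succ n ih =>
    intro Q ht hs h
    have hdeg : (finSuccEquiv A n Q).natDegree < p := by
      rw [natDegree_finSuccEquiv, degreeOf_lt_iff hp.pos]
      exact fun α hα => hs α hα 0
    have key : ∀ i, (finSuccEquiv A n Q).coeff i = 0 := by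
      intro i
      by_cases hi : i < p
      swap
      · exact Polynomial.coeff_eq_zero_of_natDegree_lt (by omega)
      apply ih
      · intro α
        rw [finSuccEquiv_coeff_coeff]
        exact ht _
      · intro α hα j
        rw [mem_support_coeff_finSuccEquiv] at hα
        simpa using hs _ hα j.succ
      · intro lam
        refine vandermonde_aux (N := N) hp
          (fun i => eval (fun i => (lam i : A)) ((finSuccEquiv A n Q).coeff i)) ?_ ?_ i hi
        · intro j
          rw [← map_nsmul]
          have : p ^ N • (finSuccEquiv A n Q).coeff j = 0 := by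
            ext α
            rw [coeff_smul, finSuccEquiv_coeff_coeff, ht, coeff_zero]
          rw [this, map_zero]
        · intro μ
          have h1 := h (Fin.cons μ lam)
          have h2 : (fun i => ((Fin.cons μ lam : Fin (n + 1) → ℤ) i : A)) =
              Fin.cons (μ : A) (fun i => (lam i : A)) := by
            funext i
            refine Fin.cases ?_ (fun j => ?_) i <;> simp
          rw [h2, eval_eq_eval_mv_eval', Polynomial.eval_eq_sum_range'
            (lt_of_le_of_lt Polynomial.natDegree_map_le hdeg)] at h1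
          rw [← h1]
          refine Finset.sum_congr rfl fun j _ => ?_
          rw [Polynomial.coeff_map, zsmul_eq_mul, mul_comm]
          push_cast
          rfl
    have : finSuccEquiv A n Q = 0 := Polynomial.ext fun i => by rw [key, Polynomial.coeff_zero]
    exact (map_eq_zero_iff _ (finSuccEquiv A n).injective).1 this

theorem mv_eq_zero {A : Type*} [CommRing A] {p N : ℕ} (hp : p.Prime)
    (Q : MvPolynomial ℕ A) (ht : ∀ α, p ^ N • coeff α Q = 0)
    (hs : ∀ α ∈ Q.support, ∀ i, α i < p)
    (h : ∀ lam : ℕ → ℤ, eval (fun i => (lam i : A)) Q = 0) : Q = 0 := by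
  classical
  obtain ⟨n, f, hf, q, rfl⟩ := exists_fin_rename Q
  have : q = 0 := by
    apply mv_fin_eq_zero (N := N) hp n q
    · intro α
      rw [← coeff_rename_mapDomain f hf]
      exact ht _
    · intro α hα i
      have := hs (Finsupp.mapDomain f α) (by
        rw [mem_support_iff, coeff_rename_mapDomain f hf]
        exact mem_support_iff.1 hα) (f i)
      rwa [Finsupp.mapDomain_apply hf] at this
    · intro lam
      have := h (Function.extend f lam 0)
      rw [eval_rename] at this
      rw [← this]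
      congr 2
      funext i
      simp [hf.extend_apply]
  rw [this, map_zero]

theorem coeff_mul_pow_eq_zero {A : Type*} [CommRing A] {p N : ℕ} (hp : p.Prime)
    (P : MvPolynomial ℕ A) (t : A) (htp : t ^ p = 0)
    (ht : ∀ α : ℕ →₀ ℕ, p ^ N • (coeff α P * t ^ α.degree) = 0)
    (h : ∀ lam : ℕ → ℤ, eval (fun i => (lam i : A) * t) P = 0) :
    ∀ α : ℕ →₀ ℕ, coeff α P * t ^ α.degree = 0 := by
  classical
  let Q : MvPolynomial ℕ A := ∑ α ∈ P.support, monomial α (coeff α P * t ^ α.degree)
  have hQ : ∀ α, coeff α Q = coeff α P * t ^ α.degree := by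
    intro α
    simp only [Q, coeff_sum, coeff_monomial]
    rw [Finset.sum_ite_eq']
    split_ifs with hα
    · rfl
    · rw [notMem_support_iff.1 hα, zero_mul]
  have : Q = 0 := by
    apply mv_eq_zero (N := N) hp
    · intro α; rw [hQ]; exact ht α
    · intro α hα i
      by_contra hi
      rw [mem_support_iff, hQ] at hα
      apply hα
      have : p ≤ α.degree := (not_lt.1 hi).trans (Finsupp.le_degree i α)
      rw [pow_eq_zero_of_le this htp, mul_zero]
    · intro lam
      rw [← h lam, eval_eq (f := P)]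
      simp only [Q, map_sum, eval_monomial]
      refine Finset.sum_congr rfl fun α _ => ?_
      rw [Finsupp.prod, mul_assoc]
      congr 1
      simp only [mul_pow, Finset.prod_mul_distrib, Finset.prod_pow_eq_pow_sum]
      rw [mul_comm, Finsupp.degree_apply]
  intro α
  rw [← hQ, this, coeff_zero]

theorem polarize {A : Type*} [CommRing A] {p N : ℕ} (hp : p.Prime) (J : Ideal A)
    (hJ : ∀ x ∈ J, p ^ N • x = 0) (j : ℕ) :
    ∀ c : A, j < p → (∀ t ∈ J, c * t ^ j = 0) → ∀ x ∈ J ^ j, c * x = 0 := by
  induction j with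
  | zero =>
    intro c _ h x _
    have := h 0 J.zero_mem
    rw [pow_zero, mul_one] at this
    rw [this, zero_mul]
  | succ j ih =>
    intro c hj h x hx
    have key : ∀ u ∈ J, ∀ t ∈ J, c * u * t ^ j = 0 := by
      intro u hu t ht
      have h1 := vandermonde_aux (N := N) hp
        (fun i => c * (u ^ i * t ^ (j + 1 - i) * ((j + 1).choose i : A))) (by
          intro i
          apply hJ
          apply J.mul_mem_left
          apply J.mul_mem_right
          rcases Nat.eq_zero_or_pos i with rfl | hi
          · exact J.mul_mem_left _ (J.pow_mem_of_mem ht _ (by omega))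
          · exact J.mul_mem_right _ (J.pow_mem_of_mem hu _ hi)) (by
          intro μ
          have h2 := h ((μ : A) * u + t) (J.add_mem (J.mul_mem_left _ hu) ht)
          rw [add_pow, Finset.mul_sum] at h2
          rw [← h2]
          symm
          apply Finset.sum_subset_zero_on_sdiff
          · exact Finset.range_subset_range.2 (by omega)
          · intro i hi
            have : j + 1 < i := by
              have := (Finset.mem_sdiff.1 hi).2
              simp only [Finset.mem_range] at this
              omega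
            simp [Nat.choose_eq_zero_of_lt this]
          · intro i _
            rw [zsmul_eq_mul]
            push_cast
            ring) 1 (by omega)
      simp only [pow_one, Nat.add_sub_cancel, Nat.choose_one_right] at h1
      refine eq_zero_of_coprime_smul (p := p) (N := N) (d := ((j + 1 : ℕ) : ℤ)) ?_ ?_ ?_
      · rw [Nat.isCoprime_iff_coprime]
        exact (Nat.coprime_of_lt_prime (by omega) hj hp).symm
      · rw [← h1, zsmul_eq_mul]
        push_cast
        ring
      · exact hJ _ (J.mul_mem_right _ (J.mul_mem_left _ hu))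
    rw [pow_succ'] at hx
    refine Submodule.mul_induction_on hx (fun u hu y hy => ?_) (fun y z hy hz => ?_)
    · rw [← mul_assoc]
      exact ih (c * u) (by omega) (key u hu) y hy
    · rw [mul_add, hy, hz, add_zero]

theorem eval_eq_zero_of_coeff {A : Type*} [CommRing A] (J : Ideal A) (P : MvPolynomial ℕ A)
    (h : ∀ α : ℕ →₀ ℕ, ∀ x ∈ J ^ α.degree, coeff α P * x = 0) (b : ℕ → A) (hb : ∀ i, b i ∈ J) :
    eval b P = 0 := by
  rw [eval_eq]
  refine Finset.sum_eq_zero fun α _ => h α _ ?_
  rw [Finsupp.degree_apply, ← Finset.prod_pow_eq_pow_sum]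
  exact Ideal.prod_mem_prod fun i _ => Ideal.pow_mem_pow (hb i) _

theorem pow_eq_bot_of_prod {A : Type*} [CommRing A] (J : Ideal A) (n : ℕ) :
    ∀ c : A, (∀ x : Fin n → A, (∀ i, x i ∈ J) → c * ∏ i, x i = 0) → ∀ y ∈ J ^ n, c * y = 0 := by
  induction n with
  | zero =>
    intro c h y _
    have := h (fun _ => 0) (fun _ => J.zero_mem)
    simp only [Finset.univ_eq_empty, Finset.prod_empty, mul_one] at this
    rw [this, zero_mul]
  | succ n ih =>
    intro c h y hy
    rw [pow_succ'] at hy
    refine Submodule.mul_induction_on hy (fun u hu y hy => ?_) (fun y z hy hz => ?_)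
    · rw [← mul_assoc]
      refine ih (c * u) (fun x hx => ?_) y hy
      have := h (Fin.cons u x) (fun i => Fin.cases hu hx i)
      rwa [Fin.prod_cons, ← mul_assoc] at this
    · rw [mul_add, hy, hz, add_zero]

theorem subring_eq_top {A : Type*} [CommRing A] (J : Ideal A) (hJ : IsNilpotent J)
    (B : Subring A) (h0 : ∀ a, ∃ b ∈ B, a - b ∈ J)
    (h1 : ∀ y ∈ J, ∃ b ∈ B, b ∈ J ∧ y - b ∈ J ^ 2) : B = ⊤ := by
  have h2 : ∀ k, ∀ y ∈ J ^ k, ∃ b ∈ B, b ∈ J ^ k ∧ y - b ∈ J ^ (k + 1) := by
    intro k
    induction k with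
    | zero =>
      intro y _
      obtain ⟨b, hb, hb2⟩ := h0 y
      exact ⟨b, hb, by simp, by simpa using hb2⟩
    | succ k ih =>
      intro y hy
      rw [pow_succ] at hy
      refine Submodule.mul_induction_on hy (fun y hy z hz => ?_) (fun y z hy hz => ?_)
      · obtain ⟨b, hb, hb1, hb2⟩ := ih y hy
        obtain ⟨c, hc, hc1, hc2⟩ := h1 z hz
        refine ⟨b * c, B.mul_mem hb hc, pow_succ J k ▸ Ideal.mul_mem_mul hb1 hc1, ?_⟩
        have : y * z - b * c = b * (z - c) + (y - b) * z := by ring
        rw [this]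
        apply Ideal.add_mem
        · rw [add_assoc, pow_add]; exact Ideal.mul_mem_mul hb1 hc2
        · rw [pow_succ]; exact Ideal.mul_mem_mul hb2 hz
      · obtain ⟨b, hb, hb1, hb2⟩ := hy
        obtain ⟨c, hc, hc1, hc2⟩ := hz
        refine ⟨b + c, B.add_mem hb hc, Ideal.add_mem _ hb1 hc1, ?_⟩
        have : y + z - (b + c) = (y - b) + (z - c) := by ring
        rw [this]
        exact Ideal.add_mem _ hb2 hc2
  have h3 : ∀ k a, ∃ b ∈ B, a - b ∈ J ^ k := by
    intro k a
    induction k with
    | zero => exact ⟨0, B.zero_mem, by simp⟩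
    | succ k ih =>
      obtain ⟨b, hb, hb2⟩ := ih
      obtain ⟨c, hc, -, hc2⟩ := h2 k _ hb2
      exact ⟨b + c, B.add_mem hb hc, by rwa [← sub_sub]⟩
  obtain ⟨n, hn⟩ := hJ
  rw [eq_top_iff]
  intro a _
  obtain ⟨b, hb, hb2⟩ := h3 n a
  rw [hn] at hb2
  rwa [sub_eq_zero.1 (Ideal.mem_bot.1 hb2)]

end Pool.Agent.MP_c0911c_al
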