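import Mathlib

namespace Pool.Agent.MP_c0911c_al

universe u

/-- The elements `x` with `x ^ (|R| ^ k) = x` for some `k ≥ 1` (powers taken in the
unitization). -/
def teich (R : Type u) [NonUnitalCommRing R] : Set R :=
  {x | ∃ k : ℕ, 0 < k ∧ (x : Unitization ℤ R) ^ (Nat.card R ^ k) = x}

end Pool.Agent.MP_c0911c_al
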