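import Pool.Agent.MP_c0911c_al.Defs

namespace Pool.Agent.MP_c0911c_al

universe u

/-- Some identity holds in every proper section `S / I` of `R` (`S` a subring, `I` an ideal of
`S`, and `S ≠ R` or `I ≠ 0`) but fails in `R`. -/
def IsSectionCritical (R : Type u) [NonUnitalRing R] : Prop :=
  ∃ s t : RingTerm,
    (∀ (S : NonUnitalSubring R) (I : TwoSidedIdeal S), (S ≠ ⊤ ∨ I ≠ ⊥) →
      SatisfiesIdentity I.ringCon.Quotient s t) ∧
      ¬ SatisfiesIdentity R s t

end Pool.Agent.MP_c0911c_al
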