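import Pool.Agent.MP_c0911c_al.Main
import Pool.Agent.MP_c0911c_al.SectionDefs
import Pool.Agent.MP_c0911c_al.Polar

namespace Pool.Agent.MP_c0911c_al

universe u v

open IsLocalRing

/-- `f` vanishes on all proper subrings. -/
def VanProper (R : Type u) [NonUnitalRing R] (f : RingTerm) : Prop :=
  ∀ S : NonUnitalSubring R, S ≠ ⊤ → ∀ v : ℕ → R, (∀ i, v i ∈ S) → f.eval v = 0

theorem isSectionCritical_iff (R : Type u) [NonUnitalRing R] :
    IsSectionCritical R ↔ ∃ f, Witness R f ∧ VanProper R f := by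
  constructor
  · rintro ⟨s, t, h1, h2⟩
    refine ⟨.add s (.neg t), ⟨fun I hI v => ?_, ?_⟩, fun S hS v hv => ?_⟩
    · obtain ⟨a, ha, ha0⟩ := exists_ne_zero_of_ne_bot hI
      have := (satisfies_quot_iff _ s t).1 (h1 ⊤ (I.comap (NonUnitalSubringClass.subtype
        (⊤ : NonUnitalSubring R))) (Or.inr (ne_bot_of_mem (a := ⟨a, trivial⟩)
          ((TwoSidedIdeal.mem_comap _).2 ha) (fun h => ha0 (congrArg Subtype.val h)))))
        (fun i => ⟨v i, trivial⟩)
      rw [TwoSidedIdeal.mem_comap, map_sub, eval_map, eval_map] at this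
      simpa [RingTerm.eval, sub_eq_add_neg] using this
    · simp only [SatisfiesIdentity, not_forall] at h2
      obtain ⟨v, hv⟩ := h2
      exact ⟨v, by simpa [RingTerm.eval, ← sub_eq_add_neg, sub_eq_zero] using hv⟩
    · have := (satisfies_quot_iff _ s t).1 (h1 S ⊥ (Or.inl hS)) (fun i => ⟨v i, hv i⟩)
      rw [TwoSidedIdeal.mem_bot] at this
      have h3 := congrArg (NonUnitalSubringClass.subtype S) this
      rw [map_sub, eval_map, eval_map, map_zero] at h3
      simpa [RingTerm.eval, sub_eq_add_neg] using h3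
  · rintro ⟨f, ⟨h1, v, hv⟩, h2⟩
    refine ⟨f, .zero, fun S I hSI => (satisfies_quot_iff I _ _).2 fun w => ?_, fun h => hv (h v)⟩
    simp only [RingTerm.eval, sub_zero]
    have he : ((f.eval w : S) : R) = f.eval (fun i => (w i : R)) :=
      eval_map (NonUnitalSubringClass.subtype S) w f
    by_cases hS : S = ⊤
    · subst hS
      have hI : I ≠ ⊥ := hSI.resolve_left (fun h => h rfl)
      obtain ⟨a, ha, ha0⟩ := exists_ne_zero_of_ne_bot hI
      let e : R →ₙ+* (⊤ : NonUnitalSubring R) := (NonUnitalSubring.topEquiv (R := R)).symm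
      have := h1 (I.comap e) (ne_bot_of_mem (a := (a : R)) ((TwoSidedIdeal.mem_comap _).2 ha)
        (fun h => ha0 (Subtype.ext h))) (fun i => (w i : R))
      rw [TwoSidedIdeal.mem_comap, eval_map] at this
      exact this
    · have : f.eval w = 0 := Subtype.ext (he.trans (h2 S hS _ (fun i => (w i).2)))
      rw [this]
      exact I.zero_mem

theorem VanProper.map {R : Type u} {S : Type v} [NonUnitalRing R] [NonUnitalRing S]
    (φ : R ≃+* S) {f : RingTerm} (h : VanProper R f) : VanProper S f := by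
  intro T hT v hv
  have h1 := h (T.comap (φ : R →ₙ+* S)) (by
    intro h2
    apply hT
    rw [eq_top_iff]
    intro x _
    have : φ.symm x ∈ T.comap (φ : R →ₙ+* S) := h2 ▸ trivial
    simpa using this) (fun i => φ.symm (v i)) (fun i => by simpa using hv i)
  rw [← eval_map] at h1
  simpa using h1

/-- The product `x 0 * ... * x n` in a ring without identity. -/
def nprod {R : Type u} [NonUnitalCommRing R] : (n : ℕ) → (Fin (n + 1) → R) → R
  | 0, x => x 0
  | n + 1, x => x 0 * nprod n (fun i => x i.succ)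

theorem map_nprod {R : Type u} {A : Type v} [NonUnitalCommRing R] [CommRing A]
    {F : Type*} [FunLike F R A] [NonUnitalRingHomClass F R A] (φ : F) (n : ℕ)
    (x : Fin (n + 1) → R) : φ (nprod n x) = ∏ i, φ (x i) := by
  induction n with
  | zero => simp [nprod]
  | succ n ih => rw [nprod, map_mul, ih, Fin.prod_univ_succ (n := n + 1)]

theorem inr_nprod {R : Type u} [NonUnitalCommRing R] (n : ℕ) (x : Fin (n + 1) → R) :
    ((nprod n x : R) : Unitization ℤ R) = ∏ i, (x i : Unitization ℤ R) :=
  map_nprod (Unitization.inrNonUnitalAlgHom ℤ R) n x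

theorem shift_eval {A : Type u} [CommRing A] (W : Subring A) (w : ℕ → W) (f : RingTerm)
    (b : ℕ → A) :
    MvPolynomial.eval b (MvPolynomial.map W.subtype
      (f.eval (fun i => MvPolynomial.C (w i) + MvPolynomial.X i))) =
      f.eval (fun i => (w i : A) + b i) := by
  rw [eval_map, eval_map]
  simp

/-! ### Coefficient subring of a finite local ring -/

section Local

variable {S : Type u} [CommRing S] [Finite S] [IsLocalRing S] {p N : ℕ}

theorem p_pow_smul (hc : Nat.card S = p ^ N) (x : S) : p ^ N • x = 0 := by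
  rw [← hc]; exact card_nsmul_eq_zero'

theorem p_mem (hc : Nat.card S = p ^ N) : (p : S) ∈ maximalIdeal S := by
  have h := p_pow_smul hc 1
  rw [nsmul_eq_mul, mul_one, Nat.cast_pow] at h
  exact (maximalIdeal.isMaximal S).isPrime.mem_of_pow_mem N (h ▸ zero_mem _)

theorem exists_coeff_ring (hp : p.Prime) (hc : Nat.card S = p ^ N) :
    ∃ W : Subring S, (∀ a, ∃ w ∈ W, a - w ∈ maximalIdeal S) ∧
      ∀ w ∈ W, w ∈ maximalIdeal S → ∃ y ∈ W, w = p * y := by
  classical
  have : Finite (ResidueField S) := Finite.of_surjective _ (residue_surjective (R := S))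
  have := Fintype.ofFinite (ResidueField S)
  have hpm := p_mem hc
  have hchar : CharP (ResidueField S) p := by
    have : Fact p.Prime := ⟨hp⟩
    apply (CharP.charP_iff_prime_eq_zero hp).2
    rw [← map_natCast (residue S), residue_eq_zero_iff]
    exact hpm
  obtain ⟨r, -, hq⟩ := FiniteField.card (ResidueField S) p
  have step : ∀ (k : ℕ) (a b : S), a - b ∈ maximalIdeal S ^ (k + 1) →
      a ^ p - b ^ p ∈ maximalIdeal S ^ (k + 2) := by
    intro k a b h
    obtain ⟨z, hz⟩ := exists_add_pow_prime_eq hp b (a - b)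
    rw [add_sub_cancel] at hz
    have : a ^ p - b ^ p = (a - b) ^ p + (a - b) * p * (b * z) := by rw [hz]; ring
    rw [this]
    apply Ideal.add_mem
    · have h2 := Ideal.pow_mem_pow h p
      rw [← pow_mul] at h2
      exact Ideal.pow_le_pow_right (by have := hp.two_le; nlinarith) h2
    · exact Ideal.mul_mem_right _ _ (pow_succ (maximalIdeal S) (k + 1) ▸ Ideal.mul_mem_mul h hpm)
  have base : ∀ a : S, a ^ p ^ (r : ℕ) - a ∈ maximalIdeal S := by
    intro a
    rw [← residue_eq_zero_iff, map_sub, map_pow, ← hq, FiniteField.pow_card, sub_self]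
  have step2 : ∀ (k : ℕ) (a : S), (a ^ p ^ (r : ℕ)) ^ p ^ k - a ^ p ^ k ∈ maximalIdeal S ^ (k + 1) := by
    intro k a
    induction k with
    | zero => simpa using base a
    | succ k ih => rw [pow_succ p k, pow_mul, pow_mul]; exact step k _ _ ih
  obtain ⟨n, hn⟩ := maximalIdeal_nilpotent S
  let T : Set S := {x | x ^ p ^ (r : ℕ) = x}
  refine ⟨Subring.closure T, fun a => ?_, ?_⟩
  · refine ⟨a ^ (p ^ (r : ℕ)) ^ n, Subring.subset_closure ?_, ?_⟩
    · have h1 := step2 (r * n) a
      have h2 : maximalIdeal S ^ (r * n + 1) = ⊥ := by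
        apply pow_eq_zero_of_le _ hn
        have := r.pos
        nlinarith
      rw [h2, Ideal.mem_bot, sub_eq_zero, pow_mul p] at h1
      change (a ^ (p ^ (r : ℕ)) ^ n) ^ p ^ (r : ℕ) = _
      rw [← pow_mul, mul_comm, pow_mul, h1]
    · rw [← residue_eq_zero_iff, map_sub, map_pow, ← hq, FiniteField.pow_card_pow, sub_self]
  · have key : ∀ x ∈ Subring.closure T, ∃ y ∈ Subring.closure T, x ^ p ^ (r : ℕ) - x = p * y := by
      intro x hx
      induction hx using Subring.closure_induction with
      | mem x hx => exact ⟨0, zero_mem _, by rw [hx, sub_self, mul_zero]⟩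
      | zero => exact ⟨0, zero_mem _, by rw [zero_pow (pow_pos hp.pos _).ne', sub_self, mul_zero]⟩
      | one => exact ⟨0, zero_mem _, by rw [one_pow, sub_self, mul_zero]⟩
      | add x y hx hy ihx ihy =>
        obtain ⟨a, ha, ha2⟩ := ihx
        obtain ⟨b, hb, hb2⟩ := ihy
        obtain ⟨z, hz⟩ := exists_add_pow_prime_pow_eq hp (⟨x, hx⟩ : Subring.closure T) ⟨y, hy⟩ r
        have hz' := congrArg Subtype.val hz
        push_cast at hz'
        refine ⟨a + b + x * y * z, add_mem (add_mem ha hb) (mul_mem (mul_mem hx hy) z.2), ?_⟩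
        rw [hz']
        linear_combination ha2 + hb2
      | neg x hx ihx =>
        obtain ⟨a, ha, ha2⟩ := ihx
        obtain ⟨z, hz⟩ := exists_add_pow_prime_pow_eq hp (⟨x, hx⟩ : Subring.closure T) (-⟨x, hx⟩) r
        have hz' := congrArg Subtype.val hz
        push_cast at hz'
        rw [add_neg_cancel, zero_pow (pow_pos hp.pos _).ne'] at hz'
        refine ⟨-a + x * x * z, add_mem (neg_mem ha) (mul_mem (mul_mem hx hx) z.2), ?_⟩
        linear_combination -hz' - ha2
      | mul x y hx hy ihx ihy =>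
        obtain ⟨a, ha, ha2⟩ := ihx
        obtain ⟨b, hb, hb2⟩ := ihy
        refine ⟨a * y ^ p ^ (r : ℕ) + x * b, add_mem (mul_mem ha (pow_mem hy _)) (mul_mem hx hb), ?_⟩
        rw [mul_pow]
        linear_combination (y ^ p ^ (r : ℕ)) * ha2 + x * hb2
    intro w hw hwm
    obtain ⟨y, hy, hy2⟩ := key w hw
    obtain ⟨q, hq'⟩ : ∃ q, p ^ (r : ℕ) = q + 2 :=
      ⟨p ^ (r : ℕ) - 2, by have := Nat.one_lt_pow r.pos.ne' hp.one_lt; omega⟩
    have hnil : IsNilpotent ((⟨w, hw⟩ : Subring.closure T) ^ (q + 1)) := by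
      refine ⟨n, Subtype.ext ?_⟩
      have := Ideal.pow_mem_pow (Ideal.pow_mem_of_mem _ hwm (q + 1) (Nat.succ_pos q)) n
      rw [hn] at this
      exact Ideal.mem_bot.1 this
    obtain ⟨u, hu⟩ := hnil.isUnit_one_sub.exists_right_inv
    have hu' := congrArg Subtype.val hu
    push_cast at hu'
    refine ⟨-y * u, mul_mem (neg_mem hy) u.2, ?_⟩
    rw [hq'] at hy2
    linear_combination -w * hu' - u * hy2

theorem local_necessary (hp : p.Prime) (hc : Nat.card S = p ^ N)
    (htame : maximalIdeal S ^ p = ⊥) {f : RingTerm} (hf : VanProper S f)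
    (h0 : ∃ v : ℕ → S, f.eval v ≠ 0) :
    maximalIdeal S = Ideal.span {(p : S)} ∨
      ((∃ t : S, maximalIdeal S = Ideal.span {(p : S), t}) ∧
        ∀ k : ℕ, maximalIdeal S ^ (k + 1) = ⊥ → (p : S) ^ k = 0) := by
  obtain ⟨W, hW1, hW2⟩ := exists_coeff_ring hp hc
  obtain ⟨v, hv⟩ := h0
  choose w hw hw2 using fun i => hW1 (v i)
  have hpm := p_mem hc
  let P : MvPolynomial ℕ S := MvPolynomial.map W.subtype
      (f.eval (fun i => MvPolynomial.C (⟨w i, hw i⟩ : W) + MvPolynomial.X i))
  have hP : ∀ b : ℕ → S, MvPolynomial.eval b P = f.eval (fun i => w i + b i) :=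
    fun b => shift_eval W _ f b
  have hcore : ∀ t ∈ maximalIdeal S, ∀ B : Subring S, B ≠ ⊤ → W ≤ B → t ∈ B →
      ∀ α : ℕ →₀ ℕ, MvPolynomial.coeff α P * t ^ α.degree = 0 := by
    intro t ht B hB hWB htB
    apply coeff_mul_pow_eq_zero (N := N) hp
    · have := Ideal.pow_mem_pow ht p
      rw [htame] at this
      exact Ideal.mem_bot.1 this
    · exact fun α => p_pow_smul hc _
    · intro lam
      rw [hP]
      apply hf B.toNonUnitalSubring
      · intro h
        apply hB
        rw [eq_top_iff]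
        intro x _
        have : x ∈ B.toNonUnitalSubring := h ▸ trivial
        exact this
      · intro i
        exact B.add_mem (hWB (hw i)) (B.mul_mem (intCast_mem B _) htB)
  have hfin : (∀ α : ℕ →₀ ℕ, ∀ x ∈ maximalIdeal S ^ α.degree, MvPolynomial.coeff α P * x = 0) →
      False := by
    intro h
    have := eval_eq_zero_of_coeff _ P h (fun i => v i - w i) hw2
    rw [hP] at this
    exact hv (by simpa using this)
  by_contra hcon
  rw [not_or, not_and_or] at hcon
  obtain ⟨h1, h2 | h2⟩ := hcon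
  · push Not at h2
    apply hfin
    intro α x hx
    by_cases hα : α.degree < p
    swap
    · have := Ideal.pow_le_pow_right (not_lt.1 hα) hx
      rw [htame] at this
      rw [Ideal.mem_bot.1 this, mul_zero]
    refine polarize (N := N) hp _ (fun x _ => p_pow_smul hc x) _ _ hα (fun t ht => ?_) x hx
    let B : Subring S :=
      { carrier := {x | ∃ w ∈ W, ∃ r, x = w + t * r}
        mul_mem' := by
          rintro _ _ ⟨a, ha, r, rfl⟩ ⟨b, hb, s, rfl⟩
          exact ⟨a * b, W.mul_mem ha hb, a * s + r * b + t * r * s, by ring⟩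
        one_mem' := ⟨1, W.one_mem, 0, by ring⟩
        add_mem' := by
          rintro _ _ ⟨a, ha, r, rfl⟩ ⟨b, hb, s, rfl⟩
          exact ⟨a + b, W.add_mem ha hb, r + s, by ring⟩
        zero_mem' := ⟨0, W.zero_mem, 0, by ring⟩
        neg_mem' := by
          rintro _ ⟨a, ha, r, rfl⟩
          exact ⟨-a, W.neg_mem ha, -r, by ring⟩ }
    refine hcore t ht B (fun hB => h2 t ?_) (fun a ha => ⟨a, ha, 0, by ring⟩)
      ⟨0, W.zero_mem, 1, by ring⟩ α
    apply le_antisymm
    · intro y hy
      have : y ∈ B := hB ▸ trivial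
      obtain ⟨a, ha, r, rfl⟩ := this
      have ham : a ∈ maximalIdeal S := by
        have := Ideal.sub_mem _ hy (Ideal.mul_mem_right r _ ht)
        rwa [add_sub_cancel_right] at this
      obtain ⟨y, -, rfl⟩ := hW2 a ha ham
      exact Ideal.mem_span_pair.2 ⟨y, r, by ring⟩
    · rw [Ideal.span_le, Set.insert_subset_iff, Set.singleton_subset_iff]
      exact ⟨hpm, ht⟩
  · push Not at h2
    obtain ⟨k, hk, hpk⟩ := h2
    have hWtop : W ≠ ⊤ := by
      intro hW
      apply h1
      apply le_antisymm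
      · intro y hy
        obtain ⟨z, -, rfl⟩ := hW2 y (hW ▸ trivial) hy
        exact Ideal.mem_span_singleton'.2 ⟨z, mul_comm _ _⟩
      · rwa [Ideal.span_le, Set.singleton_subset_iff]
    apply hfin
    intro α x hx
    have h3 := hcore p hpm W hWtop le_rfl (natCast_mem W p) α
    have h4 : MvPolynomial.coeff α P ∈ W := by
      simp only [P, MvPolynomial.coeff_map]
      exact Subtype.property _
    have h5 : ∀ n : ℕ, (∃ a u, IsUnit u ∧ MvPolynomial.coeff α P = (p : S) ^ a * u) ∨
        ∃ y ∈ W, MvPolynomial.coeff α P = (p : S) ^ n * y := by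
      intro n
      induction n with
      | zero => exact Or.inr ⟨_, h4, by simp⟩
      | succ n ih =>
        rcases ih with h | ⟨y, hy, hy2⟩
        · exact Or.inl h
        · by_cases hym : y ∈ maximalIdeal S
          · obtain ⟨z, hz, rfl⟩ := hW2 y hy hym
            exact Or.inr ⟨z, hz, by rw [hy2]; ring⟩
          · exact Or.inl ⟨n, y, (notMem_maximalIdeal).1 hym, hy2⟩
    rcases h5 N with ⟨a, u, hu, h6⟩ | ⟨y, -, h6⟩
    · rw [h6] at h3 ⊢
      have h7 : (p : S) ^ (a + α.degree) = 0 := by
        rw [mul_right_comm, ← pow_add] at h3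
        exact (hu.mul_left_eq_zero).1 h3
      have h8 : k + 1 ≤ a + α.degree := by
        by_contra h9
        exact hpk (pow_eq_zero_of_le (by omega) h7)
      have h9 : (p : S) ^ a * x ∈ maximalIdeal S ^ (k + 1) :=
        Ideal.pow_le_pow_right h8
          (pow_add (maximalIdeal S) a _ ▸ Ideal.mul_mem_mul (Ideal.pow_mem_pow hpm a) hx)
      rw [hk] at h9
      rw [mul_right_comm, Ideal.mem_bot.1 h9, zero_mul]
    · have := p_pow_smul hc y
      rw [nsmul_eq_mul, Nat.cast_pow] at this
      rw [h6, this, zero_mul]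

end Local

end Pool.Agent.MP_c0911c_al
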