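import Pool.Agent.MP_c0911c_al.Section

namespace Pool.Agent.MP_c0911c_al

universe u v

open IsLocalRing

theorem sup_pow_aux {A : Type u} [CommRing A] (J : Ideal A) (a : A) (ha : a ∈ J) (n : ℕ) :
    (Ideal.span {a} ⊔ J ^ 2) ^ n ≤ Ideal.span {a ^ n} ⊔ J ^ (n + 1) := by
  have haJ : Ideal.span {a} ≤ J := (Ideal.span_singleton_le_iff_mem _).2 ha
  induction n with
  | zero => simp
  | succ n ih =>
    rw [pow_succ]
    refine (Ideal.mul_mono_left ih).trans ?_
    rw [Ideal.sup_mul, Ideal.mul_sup, Ideal.span_singleton_mul_span_singleton, ← pow_succ]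
    refine sup_le (sup_le le_sup_left (le_sup_of_le_right ?_)) (le_sup_of_le_right ?_)
    · rw [add_assoc, pow_add J n]
      exact Ideal.mul_mono_left ((Ideal.span_singleton_le_iff_mem _).2 (Ideal.pow_mem_pow ha n))
    · rw [pow_succ J (n + 1)]
      exact Ideal.mul_mono_right (sup_le haJ (Ideal.pow_le_self two_ne_zero))

theorem local_sufficient {S : Type u} [CommRing S] [Finite S] [IsLocalRing S] {p : ℕ}
    (h : maximalIdeal S = Ideal.span {(p : S)} ∨
      ((∃ t : S, maximalIdeal S = Ideal.span {(p : S), t}) ∧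
        ∀ k : ℕ, maximalIdeal S ^ (k + 1) = ⊥ → (p : S) ^ k = 0)) :
    ∃ f : RingTerm, (∀ v : ℕ → S, f.eval v ∈ (maximalIdeal S).annihilator) ∧
      (∃ v : ℕ → S, f.eval v ≠ 0) ∧ VanProper S f := by
  classical
  have : Finite (ResidueField S) := Finite.of_surjective _ (residue_surjective (R := S))
  have := Fintype.ofFinite (ResidueField S)
  obtain ⟨q, hq⟩ : ∃ q, Fintype.card (ResidueField S) = q + 2 :=
    ⟨Fintype.card (ResidueField S) - 2, by have := Fintype.one_lt_card (α := ResidueField S); omega⟩
  have hpm : (p : S) ∈ maximalIdeal S := by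
    rcases h with h | ⟨⟨t, h⟩, -⟩
    · rw [h]; exact Ideal.mem_span_singleton_self _
    · rw [h]; exact Ideal.subset_span (Set.mem_insert _ _)
  let g : ℕ → RingTerm := fun i => .add (powTerm (.var i) (q + 1)) (.neg (.var i))
  have hg : ∀ (v : ℕ → S) i, (g i).eval v = v i ^ (q + 2) - v i := by
    intro v i
    simp only [g, RingTerm.eval, eval_powTerm, sub_eq_add_neg]
  have hgm : ∀ (v : ℕ → S) i, (g i).eval v ∈ maximalIdeal S := by
    intro v i
    rw [hg, ← residue_eq_zero_iff, map_sub, map_pow, ← hq, FiniteField.pow_card, sub_self]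
  let g' : ℕ → RingTerm := fun i => .add (powTerm (.var 0) i) (.neg (.var 0))
  have hg' : ∀ (v : ℕ → S) i, (g' i).eval v = v 0 ^ (i + 1) - v 0 := by
    intro v i
    simp only [g', RingTerm.eval, eval_powTerm, sub_eq_add_neg]
  obtain ⟨L, hL⟩ := maximalIdeal_nilpotent S
  have hex : ∃ n : ℕ, maximalIdeal S ^ n = ⊥ := ⟨L, hL⟩
  have hN := Nat.find_spec hex
  cases hNe : Nat.find hex with
  | zero =>
    rw [hNe] at hN
    simp at hN
  | succ n =>
    have hmin := Nat.find_min hex (m := n) (by omega)
    rw [hNe] at hN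
    have hw : ∃ w : Fin n → S, (∀ i, w i ∈ maximalIdeal S) ∧ ∏ i, w i ≠ 0 := by
      by_contra hc
      push Not at hc
      apply hmin
      rw [eq_bot_iff]
      intro y hy
      have := pow_eq_bot_of_prod (maximalIdeal S) n 1 (fun x hx => by rw [hc x hx, mul_zero]) y hy
      simpa using this
    obtain ⟨w, hw, hw0⟩ := hw
    have hprod : ∀ v : ℕ → S, ∏ i ∈ Finset.range n, (g (i + 1)).eval v ∈ maximalIdeal S ^ n := by
      intro v
      have := Ideal.prod_mem_prod (s := Finset.range n) (I := fun _ => maximalIdeal S)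
        (x := fun i => (g (i + 1)).eval v) (fun i _ => hgm v _)
      rwa [Finset.prod_const, Finset.card_range] at this
    have hunit : ∀ a : S, IsUnit (a * ∏ i ∈ Finset.range q, (a ^ (i + 1 + 1) - a)) ↔
        residue S a ≠ 0 ∧ ∀ i < q, residue S a ^ (i + 1) ≠ 1 := by
      intro a
      rw [← notMem_maximalIdeal, ← residue_eq_zero_iff, map_mul, map_prod, mul_eq_zero,
        Finset.prod_eq_zero_iff, not_or]
      refine and_congr_right fun ha => ?_
      simp only [Finset.mem_range, map_sub, map_pow, not_exists, not_and]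
      refine forall_congr' fun i => imp_congr_right fun _ => not_congr ?_
      rw [sub_eq_zero, pow_succ _ (i + 1)]
      exact mul_eq_right₀ ha
    refine ⟨.mul (powTerm (prodTerm g' q) L) (prodTerm g n), fun v => ?_, ?_, ?_⟩
    · rw [Submodule.mem_annihilator]
      intro x hx
      have := Ideal.mul_mem_mul (hprod v) hx
      rw [← pow_succ, hN, Ideal.mem_bot] at this
      simp only [RingTerm.eval, eval_prodTerm, smul_eq_mul]
      rw [mul_assoc, mul_assoc, this, mul_zero, mul_zero]
    · obtain ⟨θ, hθ⟩ := IsCyclic.exists_ofOrder_eq_natCard (α := (ResidueField S)ˣ)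
      rw [Nat.card_eq_fintype_card, Fintype.card_units, hq] at hθ
      obtain ⟨a, ha⟩ := residue_surjective (θ : ResidueField S)
      have hu : IsUnit (a * ∏ i ∈ Finset.range q, (a ^ (i + 1 + 1) - a)) := by
        rw [hunit, ha]
        refine ⟨θ.ne_zero, fun i hi h1 => ?_⟩
        have h2 : θ ^ (i + 1) = 1 := Units.ext (by simpa using h1)
        have := Nat.le_of_dvd (Nat.succ_pos i) (orderOf_dvd_of_pow_eq_one h2)
        omega
      refine ⟨fun i => Nat.casesOn i a (fun j => if h : j < n then w ⟨j, h⟩ else 0), ?_⟩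
      simp only [RingTerm.eval, eval_prodTerm, eval_powTerm, hg, hg', Nat.rec_zero]
      rw [Finset.prod_range (n := n)]
      simp only [Fin.is_lt, dite_true, Fin.eta]
      have : ∏ i, (w i ^ (q + 2) - w i) = (∏ i, (w i ^ (q + 1) - 1)) * ∏ i, w i := by
        rw [← Finset.prod_mul_distrib]
        exact Finset.prod_congr rfl fun i _ => by ring
      rw [this]
      have hu2 : IsUnit (∏ i, (w i ^ (q + 1) - 1)) := by
        rw [IsUnit.prod_iff]
        intro i _
        rw [← neg_sub, IsUnit.neg_iff]
        exact isUnit_one_sub_self_of_mem_nonunits _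
          (Ideal.pow_mem_of_mem (maximalIdeal S) (hw i) _ (Nat.succ_pos q))
      intro h0
      exact hw0 ((hu2.mul_right_eq_zero).1 (((isUnit_of_mul_isUnit_left hu).mul_right_eq_zero).1
        (((hu.pow _).mul_right_eq_zero).1 h0)))
    · intro B hB v hv
      simp only [RingTerm.eval, eval_prodTerm, eval_powTerm, hg']
      by_cases hu : IsUnit (v 0 * ∏ i ∈ Finset.range q, (v 0 ^ (i + 1 + 1) - v 0))
      swap
      · have h1 := Ideal.pow_mem_pow ((mem_maximalIdeal _).2 hu) L
        rw [hL] at h1
        rw [pow_succ, Ideal.mem_bot.1 h1, zero_mul, zero_mul]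
      have hpow : ∀ k : ℕ, v 0 ^ (k + 1) ∈ B := by
        intro k
        induction k with
        | zero => simpa using hv 0
        | succ k ih => rw [pow_succ]; exact B.mul_mem ih (hv 0)
      have hone : (1 : S) ∈ B := by
        obtain ⟨u, hu'⟩ := isUnit_of_mul_isUnit_left hu
        have h1 := orderOf_pos u
        have h2 := hpow (orderOf u - 1)
        rwa [Nat.sub_add_cancel h1, ← hu', ← Units.val_pow_eq_pow_val, pow_orderOf_eq_one] at h2
      let B' : Subring S := B.toSubring hone
      have hB' : B' ≠ ⊤ := by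
        intro h1
        apply hB
        rw [eq_top_iff]
        intro x _
        have : x ∈ B' := h1 ▸ trivial
        exact this
      obtain ⟨hv0, hord⟩ := (hunit _).1 hu
      have h0 : ∀ a, ∃ b ∈ B', a - b ∈ maximalIdeal S := by
        intro a
        by_cases ha : residue S a = 0
        · exact ⟨0, B'.zero_mem, by rwa [sub_zero, ← residue_eq_zero_iff]⟩
        have h1 : orderOf (Units.mk0 _ hv0) = Nat.card (ResidueField S)ˣ := by
          have h2 := orderOf_le_card (x := Units.mk0 _ hv0)
          have h3 := orderOf_pos (Units.mk0 _ hv0)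
          rw [Nat.card_eq_fintype_card, Fintype.card_units, hq] at h2 ⊢
          by_contra h4
          apply hord (orderOf (Units.mk0 _ hv0) - 1) (by omega)
          rw [Nat.sub_add_cancel h3]
          have := congrArg Units.val (pow_orderOf_eq_one (Units.mk0 _ hv0))
          rwa [Units.val_pow_eq_pow_val] at this
        have h2 : Subgroup.zpowers (Units.mk0 _ hv0) = ⊤ := by
          rw [← Subgroup.card_eq_iff_eq_top, Nat.card_zpowers, h1]
        have h3 : Units.mk0 _ ha ∈ Submonoid.powers (Units.mk0 _ hv0) := by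
          rw [mem_powers_iff_mem_zpowers, h2]; trivial
        obtain ⟨k, hk⟩ := h3
        refine ⟨v 0 ^ k, B'.pow_mem (hv 0) k, ?_⟩
        have := congrArg Units.val hk
        rw [← residue_eq_zero_iff, map_sub, map_pow, sub_eq_zero]
        simpa using this.symm
      have hpB : (p : S) ∈ B' := natCast_mem B' p
      have hgB : ∀ i, (g i).eval v ∈ B' := by
        intro i
        rw [hg]
        exact B'.sub_mem (B'.pow_mem (hv i) _) (hv i)
      rcases h with h | ⟨⟨t, h⟩, hk⟩
      · exfalso
        apply hB'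
        refine subring_eq_top _ ⟨L, hL⟩ B' h0 fun y hy => ?_
        obtain ⟨a, rfl⟩ := Ideal.mem_span_singleton'.1 (h ▸ hy)
        obtain ⟨b, hb, hb2⟩ := h0 a
        refine ⟨b * p, B'.mul_mem hb hpB, Ideal.mul_mem_left _ _ hpm, ?_⟩
        rw [← sub_mul, pow_two]
        exact Ideal.mul_mem_mul hb2 hpm
      · have htm : t ∈ maximalIdeal S := by
          rw [h]; exact Ideal.subset_span (Set.mem_insert_of_mem _ rfl)
        have hall : ∀ i, (g i).eval v ∈ Ideal.span {(p : S)} ⊔ maximalIdeal S ^ 2 := by
          intro i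
          by_contra hs
          apply hB'
          obtain ⟨α, u, hαu⟩ := Ideal.mem_span_pair.1 (h ▸ hgm v i)
          have hu' : IsUnit u := by
            rw [← notMem_maximalIdeal]
            intro hum
            apply hs
            rw [← hαu]
            exact Submodule.add_mem_sup (Ideal.mul_mem_left _ _ (Ideal.mem_span_singleton_self _))
              (pow_two (maximalIdeal S) ▸ Ideal.mul_mem_mul hum htm)
          obtain ⟨u', hu''⟩ := hu'.exists_left_inv
          refine subring_eq_top _ ⟨L, hL⟩ B' h0 fun y hy => ?_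
          obtain ⟨a, c, rfl⟩ := Ideal.mem_span_pair.1 (h ▸ hy)
          obtain ⟨b, hb, hb2⟩ := h0 (a - c * u' * α)
          obtain ⟨d, hd, hd2⟩ := h0 (c * u')
          refine ⟨b * p + d * (g i).eval v, B'.add_mem (B'.mul_mem hb hpB) (B'.mul_mem hd (hgB i)),
            Ideal.add_mem _ (Ideal.mul_mem_left _ _ hpm) (Ideal.mul_mem_left _ _ (hgm v i)), ?_⟩
          have : a * p + c * t - (b * p + d * (g i).eval v) =
              (a - c * u' * α - b) * p + (c * u' - d) * (g i).eval v := by
            rw [← hαu]
            linear_combination (-c * t) * hu''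
          rw [this, pow_two]
          exact Ideal.add_mem _ (Ideal.mul_mem_mul hb2 hpm) (Ideal.mul_mem_mul hd2 (hgm v i))
        have h1 := Ideal.prod_mem_prod (s := Finset.range n)
          (I := fun _ => Ideal.span {(p : S)} ⊔ maximalIdeal S ^ 2)
          (x := fun i => (g (i + 1)).eval v) (fun i _ => hall _)
        rw [Finset.prod_const, Finset.card_range] at h1
        have h2 := sup_pow_aux _ _ hpm n h1
        rw [hk n hN, hN] at h2
        simp only [Set.singleton_zero, Ideal.span_zero, le_refl, sup_of_le_left,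
          Ideal.mem_bot] at h2
        rw [h2, mul_zero, mul_zero]

theorem witness_of_local' {R : Type u} [NonUnitalCommRing R] [Finite R] {S : Type v} [CommRing S]
    [IsLocalRing S] (φ : R ≃+* S)
    (hc : Nat.card (maximalIdeal S).annihilator = Nat.card (ResidueField S)) {f : RingTerm}
    (hf : ∀ v : ℕ → S, f.eval v ∈ (maximalIdeal S).annihilator) (hw : ∃ v : ℕ → S, f.eval v ≠ 0) :
    Witness R f := by
  have : Finite S := Finite.of_equiv R φ.toEquiv
  obtain ⟨w, hw⟩ := hw
  refine ⟨fun I hI v => ?_, ⟨fun n => φ.symm (w n), ?_⟩⟩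
  · obtain ⟨a, ha, ha0⟩ := exists_ne_zero_of_ne_bot hI
    obtain ⟨s, hs0, hs⟩ := exists_mul_mem_ann (a := φ a) (by simpa using ha0)
    have h1 : Ideal.span {s * φ a} = (maximalIdeal S).annihilator := by
      apply SetLike.coe_injective
      apply Set.eq_of_subset_of_ncard_le
      · exact (Ideal.span_singleton_le_iff_mem _).2 hs
      · rw [← Nat.card_coe_set_eq, ← Nat.card_coe_set_eq]
        exact (hc.trans (card_span_of_ann hs hs0).symm).le
      · exact Set.toFinite _
    have h2 := hf (fun n => φ (v n))
    rw [← eval_map, ← h1, Ideal.mem_span_singleton'] at h2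
    obtain ⟨t, ht⟩ := h2
    have : f.eval v = φ.symm (t * s) * a := by
      apply φ.injective
      rw [map_mul, RingEquiv.apply_symm_apply, ← ht, mul_assoc]
    rw [this]
    exact I.mul_mem_left _ _ ha
  · rw [← eval_map]
    simpa using hw

end Pool.Agent.MP_c0911c_al
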