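import Pool.Agent.MP_c0911c_al.Section2

namespace Pool.Agent.MP_c0911c_al

universe u v

open IsLocalRing

/-- The image of `R` in its unitization. -/
def augIdeal (R : Type u) [NonUnitalCommRing R] : Ideal (Unitization ℤ R) :=
  RingHom.ker (Unitization.fstHom ℤ R)

theorem mem_augIdeal {R : Type u} [NonUnitalCommRing R] {x : Unitization ℤ R} :
    x ∈ augIdeal R ↔ ∃ r : R, x = r := by
  constructor
  · intro h
    have h1 : x.fst = 0 := h
    refine ⟨x.snd, ?_⟩
    conv_lhs => rw [← Unitization.inl_fst_add_inr_snd_eq x, h1]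
    simp
  · rintro ⟨r, rfl⟩
    simp [augIdeal, RingHom.mem_ker]

theorem inr_eval {R : Type u} [NonUnitalCommRing R] (v : ℕ → R) (f : RingTerm) :
    ((f.eval v : R) : Unitization ℤ R) = f.eval (fun i => (v i : Unitization ℤ R)) :=
  eval_map (Unitization.inrNonUnitalAlgHom ℤ R) v f

theorem eval_zero {A : Type u} [NonUnitalRing A] (f : RingTerm) :
    f.eval (fun _ => (0 : A)) = 0 := by
  induction f with
  | var n => rfl
  | zero => rfl
  | add s t hs ht => simp [RingTerm.eval, hs, ht]
  | neg s hs => simp [RingTerm.eval, hs]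
  | mul s t hs ht => simp [RingTerm.eval, hs]

theorem exists_mvPoly {A : Type u} [CommRing A] (f : RingTerm) :
    ∃ P : MvPolynomial ℕ A, ∀ b : ℕ → A, MvPolynomial.eval b P = f.eval b := by
  refine ⟨f.eval (fun i => MvPolynomial.X i), fun b => ?_⟩
  rw [eval_map]
  simp

theorem nil_necessary {R : Type u} [NonUnitalCommRing R] {p N : ℕ} (hp : p.Prime)
    (hc : Nat.card R = p ^ N) (htame : augIdeal R ^ p = ⊥) {f : RingTerm} (hf : VanProper R f)
    (h0 : ∃ v : ℕ → R, f.eval v ≠ 0) : ∃ x : R, NonUnitalSubring.closure {x} = ⊤ := by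
  by_contra hcon
  push Not at hcon
  obtain ⟨v, hv⟩ := h0
  have htors : ∀ x ∈ augIdeal R, p ^ N • x = 0 := by
    intro x hx
    obtain ⟨r, rfl⟩ := mem_augIdeal.1 hx
    rw [← Unitization.inr_smul, ← hc, card_nsmul_eq_zero', Unitization.inr_zero]
  obtain ⟨P, hP⟩ := exists_mvPoly (A := Unitization ℤ R) f
  have hP0 : MvPolynomial.coeff 0 P = 0 := by
    rw [← MvPolynomial.constantCoeff_eq, ← MvPolynomial.eval_zero', hP, eval_zero]
  have key : ∀ α : ℕ →₀ ℕ, ∀ x ∈ augIdeal R ^ α.degree, MvPolynomial.coeff α P * x = 0 := by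
    intro α x hx
    by_cases hα : α.degree < p
    swap
    · have := Ideal.pow_le_pow_right (not_lt.1 hα) hx
      rw [htame] at this
      rw [Ideal.mem_bot.1 this, mul_zero]
    refine polarize (N := N) hp _ htors _ _ hα (fun t ht => ?_) x hx
    apply coeff_mul_pow_eq_zero (N := N) hp
    · have := Ideal.pow_mem_pow ht p
      rw [htame] at this
      exact Ideal.mem_bot.1 this
    · intro β
      by_cases hβ : β = 0
      · rw [hβ, hP0, zero_mul, smul_zero]
      · apply htors
        exact Ideal.mul_mem_left _ _ (Ideal.pow_mem_of_mem _ ht _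
          (Nat.pos_of_ne_zero (fun h => hβ ((Finsupp.degree_eq_zero_iff β).1 h))))
    · intro lam
      obtain ⟨r, rfl⟩ := mem_augIdeal.1 ht
      have h1 := hf _ (hcon r) (fun i => lam i • r)
        (fun i => by
          have h0 : r ∈ NonUnitalSubring.closure {r} :=
            NonUnitalSubring.subset_closure (Set.mem_singleton r)
          exact zsmul_mem h0 (lam i))
      have h2 := inr_eval (fun i => lam i • r) f
      rw [h1, Unitization.inr_zero] at h2
      have h3 : (fun i => ((lam i • r : R) : Unitization ℤ R)) =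
          fun i => (lam i : Unitization ℤ R) * (r : Unitization ℤ R) := by
        funext i
        rw [Unitization.inr_smul, zsmul_eq_mul]
      rw [h3] at h2
      exact (hP _).trans h2.symm
  have := eval_eq_zero_of_coeff _ P key (fun i => (v i : Unitization ℤ R))
    (fun i => mem_augIdeal.2 ⟨_, rfl⟩)
  have h5 := (inr_eval v f).trans ((hP _).symm.trans this)
  exact hv (Unitization.inr_injective (R := ℤ) (by rw [h5, Unitization.inr_zero]))

theorem proper_subring_nil {R : Type u} [NonUnitalCommRing R] {p N : ℕ} (hp : p.Prime)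
    (hc : Nat.card R = p ^ N) (hnil : IsNilpotent (augIdeal R)) {x : R}
    (hx : NonUnitalSubring.closure {x} = ⊤) (S : NonUnitalSubring R) (hS : S ≠ ⊤) (s : R)
    (hs : s ∈ S) : ∃ a r : R, s = p • a + x * r := by
  have hform : ∀ y : R, ∃ (n : ℤ) (r : R), y = n • x + x * r := by
    intro y
    have hy : y ∈ NonUnitalSubring.closure {x} := hx ▸ trivial
    induction hy using NonUnitalSubring.closure_induction with
    | mem y hy => exact ⟨1, 0, by rw [Set.mem_singleton_iff.1 hy]; simp⟩
    | zero => exact ⟨0, 0, by simp⟩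
    | add y z _ _ hy hz =>
      obtain ⟨n, r, rfl⟩ := hy
      obtain ⟨m, t, rfl⟩ := hz
      exact ⟨n + m, r + t, by rw [add_smul, mul_add]; abel⟩
    | neg y _ hy =>
      obtain ⟨n, r, rfl⟩ := hy
      exact ⟨-n, -r, by rw [neg_smul, mul_neg]; abel⟩
    | mul y z _ _ hy hz =>
      obtain ⟨n, r, rfl⟩ := hy
      exact ⟨0, n • z + r * z, by
        rw [zero_smul, zero_add, add_mul, mul_add, smul_mul_assoc, mul_smul_comm, mul_assoc]⟩
  obtain ⟨n, r, hnr⟩ := hform s
  by_cases hpn : (p : ℤ) ∣ n
  · obtain ⟨m, rfl⟩ := hpn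
    exact ⟨m • x, r, by rw [hnr, mul_smul, natCast_zsmul]⟩
  exfalso
  have hcop : IsCoprime ((p : ℤ) ^ N) n :=
    ((Int.prime_iff_natAbs_prime.2 (by simpa using hp)).coprime_iff_not_dvd.2 hpn).pow_left
  obtain ⟨a, b, hab⟩ := hcop
  have hx0 : ((p : ℤ) ^ N) • x = 0 := by
    rw [← Nat.cast_pow, natCast_zsmul, ← hc, card_nsmul_eq_zero']
  have hs' : x + x * (b • r) ∈ S := by
    have : x + x * (b • r) = b • s := by
      rw [hnr, smul_add, ← mul_smul, mul_smul_comm]
      congr 1
      calc x = (a * (p : ℤ) ^ N + b * n) • x := by rw [hab, one_smul]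
        _ = (b * n) • x := by rw [add_smul, mul_smul, hx0, smul_zero, zero_add]
    rw [this]
    exact zsmul_mem hs b
  let B : Subring (Unitization ℤ R) :=
    { carrier := {u | u.snd ∈ S}
      mul_mem' := by
        intro u w hu hw
        simp only [Set.mem_ofPred_eq, Unitization.snd_mul] at *
        exact S.add_mem (S.add_mem (zsmul_mem hw _) (zsmul_mem hu _)) (S.mul_mem hu hw)
      one_mem' := S.zero_mem
      add_mem' := fun hu hw => S.add_mem hu hw
      zero_mem' := S.zero_mem
      neg_mem' := fun hu => S.neg_mem hu }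
  have hB : B = ⊤ := by
    refine subring_eq_top (A := Unitization ℤ R) (augIdeal R) hnil B (fun u => ⟨Unitization.inl u.fst, by exact S.zero_mem, ?_⟩) ?_
    · refine mem_augIdeal.2 ⟨u.snd, ?_⟩
      rw [sub_eq_iff_eq_add', Unitization.inl_fst_add_inr_snd_eq]
    · intro y hy
      obtain ⟨y, rfl⟩ := mem_augIdeal.1 hy
      obtain ⟨m, t, rfl⟩ := hform y
      refine ⟨((m • (x + x * (b • r)) : R) : Unitization ℤ R), zsmul_mem hs' m,
        mem_augIdeal.2 ⟨_, rfl⟩, ?_⟩
      have : ((m • x + x * t : R) : Unitization ℤ R) - ((m • (x + x * (b • r)) : R) : Unitization ℤ R)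
          = (x : Unitization ℤ R) * ((t - m • b • r : R) : Unitization ℤ R) := by
        rw [← Unitization.inr_mul, ← Unitization.inr_sub]
        congr 1
        rw [smul_add, mul_sub, mul_smul_comm m]
        abel
      rw [this, pow_two]
      exact Ideal.mul_mem_mul (mem_augIdeal.2 ⟨_, rfl⟩) (mem_augIdeal.2 ⟨_, rfl⟩)
  apply hS
  rw [eq_top_iff]
  intro y _
  have : (y : Unitization ℤ R) ∈ B := hB ▸ trivial
  exact this

theorem foldl_add_eq {R : Type u} [NonUnitalCommRing R] (a b : R) (l : List R) :
    l.foldl (· * ·) (a + b) = l.foldl (· * ·) a + l.foldl (· * ·) b := by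
  induction l generalizing a b with
  | nil => rfl
  | cons c l ih => simp only [List.foldl_cons, add_mul, ih]

theorem foldl_smul_eq {R : Type u} [NonUnitalCommRing R] (n : ℕ) (a : R) (l : List R) :
    l.foldl (· * ·) (n • a) = n • l.foldl (· * ·) a := by
  induction l generalizing a with
  | nil => rfl
  | cons c l ih => simp only [List.foldl_cons, smul_mul_assoc, ih]

theorem nil_sufficient {R : Type u} [NonUnitalCommRing R] [Finite R] {p N : ℕ} (hp : p.Prime)
    (hcR : Nat.card R = p ^ N)
    (hn : ∃ n : ℕ, ∀ (a : R) (l : List R), l.length = n → l.foldl (· * ·) a = 0)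
    (hcyc : IsAddCyclic (annihilatorSubgroup R))
    (hpp : IsPrimePow (Nat.card (annihilatorSubgroup R))) :
    ∃ f, Witness R f ∧ ∀ v : ℕ → R, (∃ a x r : R, v 0 = p • a + x * r) → f.eval v = 0 := by
  classical
  obtain ⟨k, -, hc⟩ := (Nat.dvd_prime_pow hp).1
    (hcR ▸ AddSubgroup.card_addSubgroup_dvd_card (annihilatorSubgroup R))
  have hN := Nat.find_spec hn
  have hnt : Nontrivial (annihilatorSubgroup R) := by
    rw [← Finite.one_lt_card_iff_nontrivial]
    exact hpp.one_lt
  cases hNe : Nat.find hn with
  | zero =>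
    exfalso
    rw [hNe] at hN
    obtain ⟨x, hx⟩ := exists_ne (0 : annihilatorSubgroup R)
    exact hx (Subtype.ext (hN x [] rfl))
  | succ n =>
    have hmin := Nat.find_min hn (m := n) (by omega)
    rw [hNe] at hN
    push Not at hmin
    obtain ⟨a, l, hl, hal⟩ := hmin
    have hval : ∀ v : ℕ → R, (prodTerm .var n).eval v ∈ annihilatorSubgroup R := by
      intro v x
      have := hN (v 0) ((List.ofFn fun i : Fin n => v (i + 1)) ++ [x]) (by simp)
      rw [eval_prodTerm_var]
      simpa using this
    have hex : ∃ e : ℕ, ∀ v : ℕ → R, p ^ e • (prodTerm .var n).eval v = 0 := by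
      refine ⟨N, fun v => ?_⟩
      rw [← hcR, card_nsmul_eq_zero']
    have hE := Nat.find_spec hex
    cases hEe : Nat.find hex with
    | zero =>
      exfalso
      rw [hEe] at hE
      obtain ⟨v, hv⟩ := exists_eval_prodTerm_var a l
      have := hE v
      rw [← hl, hv] at this
      exact hal (by simpa using this)
    | succ e =>
      have hmin := Nat.find_min hex (m := e) (by omega)
      rw [hEe] at hE
      push Not at hmin
      refine ⟨nsmulTerm (prodTerm .var n) (p ^ e), ⟨fun I hI v => ?_, ?_⟩, ?_⟩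
      · obtain ⟨x, hx, hx0⟩ := exists_ne_zero_of_ne_bot hI
        obtain ⟨b, hb, hb0, hba⟩ := exists_mem_ann hn hx hx0
        have h1 := cyclic_pgroup_aux (G := annihilatorSubgroup R) hp hc
          (b := ⟨b, hba⟩) (c := p ^ e • ⟨_, hval v⟩) (fun h => hb0 (congrArg Subtype.val h))
          (by
            apply Subtype.ext
            have := hE v
            rw [pow_succ', mul_smul] at this
            exact this)
        obtain ⟨z, hz⟩ := AddSubgroup.mem_zmultiples_iff.1 h1
        have hz' : z • b = p ^ e • (prodTerm .var n).eval v := congrArg Subtype.val hz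
        rw [eval_nsmulTerm, ← hz']
        exact I.zsmul_mem z hb
      · obtain ⟨v, hv⟩ := hmin
        exact ⟨v, by rwa [eval_nsmulTerm]⟩
      · rintro v ⟨a, x, r, hv⟩
        have h1 := hE (Function.update v 0 a)
        rw [eval_prodTerm_var] at h1
        simp only [Function.update_self, ne_eq, Nat.add_eq_zero_iff, one_ne_zero, and_false,
          not_false_eq_true, Function.update_of_ne] at h1
        have h2 := hN x (r :: List.ofFn fun i : Fin n => v (i + 1)) (by simp)
        rw [List.foldl_cons] at h2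
        rw [eval_nsmulTerm, eval_prodTerm_var, hv, foldl_add_eq, h2, add_zero, foldl_smul_eq,
          ← mul_smul, ← pow_succ, h1]

theorem isSectionCritical_tame (R : Type u) [NonUnitalCommRing R] [Finite R] (p N : ℕ)
    (hp : p.Prime) (hcard : Nat.card R = p ^ N)
    (htame : ∀ x : Fin p → R, (∀ i, IsNilpotent (x i : Unitization ℤ R)) →
      ∏ i, (x i : Unitization ℤ R) = 0) :
    IsSectionCritical R ↔
      (∃ (S : Type u) (_ : CommRing S) (_ : IsLocalRing S), Nonempty (R ≃+* S) ∧
        Nat.card (IsLocalRing.maximalIdeal S).annihilator =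
          Nat.card (IsLocalRing.ResidueField S) ∧
        (IsLocalRing.maximalIdeal S = Ideal.span {(p : S)} ∨
          ((∃ t : S, IsLocalRing.maximalIdeal S = Ideal.span {(p : S), t}) ∧
            ∀ k : ℕ, IsLocalRing.maximalIdeal S ^ (k + 1) = ⊥ → (p : S) ^ k = 0))) ∨
      ((∀ x : R, IsNilpotent (x : Unitization ℤ R)) ∧
        IsAddCyclic (annihilatorSubgroup R) ∧
        IsPrimePow (Nat.card (annihilatorSubgroup R)) ∧
        ∃ x : R, NonUnitalSubring.closure {x} = ⊤) := by
  have haug : (∀ x : R, IsNilpotent (x : Unitization ℤ R)) → augIdeal R ^ p = ⊥ := by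
    intro h
    rw [eq_bot_iff]
    intro y hy
    have := pow_eq_bot_of_prod (augIdeal R) p 1 (fun x hx => by
      choose r hr using fun i => mem_augIdeal.1 (hx i)
      simp only [hr, htame r (fun i => h _), mul_zero]) y hy
    simpa using this
  rw [isSectionCritical_iff]
  constructor
  · rintro ⟨f, ⟨h1, v, hv⟩, hf⟩
    have hM : Mono R := ⟨_, hv, fun I hI => h1 I hI v⟩
    by_cases h : ∀ e : R, e * e = e → e = 0
    · have hnil : ∀ x : R, IsNilpotent (x : Unitization ℤ R) := by
        intro x
        obtain ⟨m, hm, hm2⟩ := exists_idem x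
        have : ∃ k : ℕ, (m : Unitization ℤ R) = (x : Unitization ℤ R) ^ k := by
          clear hm2
          induction hm using Subsemigroup.closure_induction with
          | mem y hy => exact ⟨1, by rw [Set.mem_singleton_iff.1 hy, pow_one]⟩
          | mul y z _ _ hy hz =>
            obtain ⟨i, hi⟩ := hy
            obtain ⟨j, hj⟩ := hz
            exact ⟨i + j, by rw [Unitization.inr_mul, hi, hj, pow_add]⟩
        obtain ⟨k, hk⟩ := this
        exact ⟨k, by rw [← hk, h m hm2, Unitization.inr_zero]⟩
      obtain ⟨h2, h3⟩ := nilpotent_struct hM (nilpotent_of_no_idem h)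
      exact Or.inr ⟨hnil, h2, h3, nil_necessary hp hcard (haug hnil) hf ⟨v, hv⟩⟩
    · push Not at h
      obtain ⟨e, he, he0⟩ := h
      obtain ⟨S, _, _, ⟨φ⟩, hc⟩ := local_struct hM he he0
      have : Finite S := Finite.of_equiv R φ.toEquiv
      refine Or.inl ⟨S, _, _, ⟨φ⟩, hc, local_necessary (N := N) hp ?_ ?_ (hf.map φ) ?_⟩
      · rw [← hcard]; exact (Nat.card_congr φ.toEquiv).symm
      · obtain ⟨n, rfl⟩ : ∃ n, p = n + 1 := ⟨p - 1, by have := hp.pos; omega⟩
        rw [eq_bot_iff]
        intro y hy
        have := pow_eq_bot_of_prod (maximalIdeal S) (n + 1) 1 (fun x hx => by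
          have h2 := htame (fun i => φ.symm (x i)) (fun i => by
            obtain ⟨L, hL⟩ := maximalIdeal_nilpotent S
            have h3 := Ideal.pow_mem_pow (hx i) L
            rw [hL] at h3
            have h4 : nprod L (fun _ => φ.symm (x i)) = 0 := by
              apply φ.injective
              rw [map_nprod, map_zero]
              simp [pow_succ, Ideal.mem_bot.1 h3]
            refine ⟨L + 1, ?_⟩
            have h5 := inr_nprod L (fun _ => φ.symm (x i))
            rw [h4] at h5
            simpa using h5.symm)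
          rw [← inr_nprod] at h2
          have h3 : nprod n (fun i => φ.symm (x i)) = 0 :=
            Unitization.inr_injective (R := ℤ) (by rw [h2, Unitization.inr_zero])
          have h4 := congrArg φ h3
          rw [map_nprod, map_zero] at h4
          simpa using h4) y hy
        simpa using this
      · exact ⟨fun i => φ (v i), by rw [← eval_map]; simpa using hv⟩
  · rintro (⟨S, _, _, ⟨φ⟩, hc, h⟩ | ⟨h1, h2, h3, x, hx⟩)
    · have : Finite S := Finite.of_equiv R φ.toEquiv
      obtain ⟨f, hf1, hf2, hf3⟩ := local_sufficient h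
      exact ⟨f, witness_of_local' φ hc hf1 hf2, hf3.map φ.symm⟩
    · have hn := nilpotent_of_no_idem (R := R) (fun e he => by
        have h4 : IsIdempotentElem (e : Unitization ℤ R) := by
          rw [IsIdempotentElem, ← Unitization.inr_mul, he]
        exact Unitization.inr_injective (R := ℤ)
          (by
            obtain ⟨k, hk⟩ := h1 e
            have h5 := IsIdempotentElem.pow_succ_eq (M := Unitization ℤ R) k h4
            rw [pow_succ, hk, zero_mul] at h5
            rw [Unitization.inr_zero, ← h5]))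
      obtain ⟨f, hf1, hf2⟩ := nil_sufficient hp hcard hn h2 h3
      refine ⟨f, hf1, fun S hS v hv => hf2 v ?_⟩
      obtain ⟨a, r, h⟩ := proper_subring_nil hp hcard ⟨p, haug h1⟩ hx S hS _ (hv 0)
      exact ⟨a, x, r, h⟩

end Pool.Agent.MP_c0911c_al
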