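import Pool.Agent.Mg.Fc0911c.G8294cd

open Pool.Agent.MP_c0911c_al

universe u

/-- Finite commutative rings of order `p ^ N` in which every product of `p` nilpotent elements
vanishes: classification of those for which some identity holds in all proper sections
(quotients of subrings) but not in the ring. -/
theorem Pool.Agent.MP_c0911c_al.sectionTameOld
    (R : Type u) [NonUnitalCommRing R] [Finite R] (p N : ℕ)
    (hp : p.Prime) (hcard : Nat.card R = p ^ N)
    (htame : ∀ x : Fin p → R, (∀ i, IsNilpotent (x i : Unitization ℤ R)) →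
      ∏ i, (x i : Unitization ℤ R) = 0) :
    IsSectionCritical R ↔
      (∃ (S : Type u) (_ : CommRing S) (_ : IsLocalRing S), Nonempty (R ≃+* S) ∧
        Nat.card (IsLocalRing.maximalIdeal S).annihilator =
          Nat.card (IsLocalRing.ResidueField S) ∧
        (IsLocalRing.maximalIdeal S = Ideal.span {(p : S)} ∨
          ((∃ t : S, IsLocalRing.maximalIdeal S = Ideal.span {(p : S), t}) ∧
            ∀ k : ℕ, IsLocalRing.maximalIdeal S ^ (k + 1) = ⊥ → (p : S) ^ k = 0))) ∨
      ((∀ x : R, IsNilpotent (x : Unitization ℤ R)) ∧
        IsAddCyclic (annihilatorSubgroup R) ∧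
        IsPrimePow (Nat.card (annihilatorSubgroup R)) ∧
        ∃ x : R, NonUnitalSubring.closure {x} = ⊤) :=
  isSectionCritical_tame R p N hp hcard htame
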